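import Mathlib

set_option autoImplicit false

open MeasureTheory ComplexConjugate

namespace Pool.Agent.Y259.RH

variable {n : ℕ}

/-- A Reinhardt domain in `ℂⁿ`: a (nonempty) connected open set which is invariant under the
rotations `(z₁, …, zₙ) ↦ (e^{iθ₁} z₁, …, e^{iθₙ} zₙ)`. -/
structure IsReinhardtDomain (Ω : Set (Fin n → ℂ)) : Prop where
  isOpen : IsOpen Ω
  isConnected : IsConnected Ω
  rotate : ∀ z ∈ Ω, ∀ θ : Fin n → ℝ, (fun j => Complex.exp (Complex.I * θ j) * z j) ∈ Ω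

/-- The Hilbert space `L²(Ω)` with respect to Lebesgue measure. -/
noncomputable abbrev L2 (Ω : Set (Fin n → ℂ)) := Lp ℂ 2 ((volume : Measure (Fin n → ℂ)).restrict Ω)

/-- The Bergman space `A²(Ω)`: the elements of `L²(Ω)` which are represented by a holomorphic
function on `Ω`. -/
noncomputable def bergman (Ω : Set (Fin n → ℂ)) : Submodule ℂ (L2 Ω) where
  carrier := {u | ∃ g : (Fin n → ℂ) → ℂ, DifferentiableOn ℂ g Ω ∧
    ∀ᵐ z ∂((volume : Measure (Fin n → ℂ)).restrict Ω), u z = g z}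
  add_mem' := by
    rintro u v ⟨g, hg, hu⟩ ⟨h, hh, hv⟩
    refine ⟨fun z => g z + h z, hg.add hh, ?_⟩
    filter_upwards [hu, hv, Lp.coeFn_add u v] with z h1 h2 h3
    rw [h3, Pi.add_apply, h1, h2]
  zero_mem' := by
    refine ⟨fun _ => 0, differentiableOn_const _, ?_⟩
    filter_upwards [Lp.coeFn_zero ℂ 2 ((volume : Measure (Fin n → ℂ)).restrict Ω)] with z h1
    rw [h1, Pi.zero_apply]
  smul_mem' := by
    rintro c u ⟨g, hg, hu⟩
    refine ⟨fun z => c * g z, hg.const_mul c, ?_⟩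
    filter_upwards [hu, Lp.coeFn_smul c u] with z h1 h3
    rw [h3, Pi.smul_apply, smul_eq_mul, h1]

/-- The domain of the Hankel operator `H` with symbol `f̄`: the `g` in `A²(Ω)` with
`f̄ g` in `L²(Ω)`. -/
def hankelDomain (Ω : Set (Fin n → ℂ)) (f : (Fin n → ℂ) → ℂ) : Set (L2 Ω) :=
  {g | g ∈ bergman Ω ∧
    MemLp (fun z => conj (f z) * g z) 2 ((volume : Measure (Fin n → ℂ)).restrict Ω)}

/-- `w = (I - P)(f̄ g)`, where `P` is the orthogonal projection onto `A²(Ω)`: `w` is orthogonal to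
`A²(Ω)` and `f̄ g = v + w` with `v` in `A²(Ω)`. -/
def IsHankelValue (Ω : Set (Fin n → ℂ)) (f : (Fin n → ℂ) → ℂ) (g w : L2 Ω) : Prop :=
  w ∈ (bergman Ω)ᗮ ∧ ∃ v ∈ bergman Ω,
    ∀ᵐ z ∂((volume : Measure (Fin n → ℂ)).restrict Ω), conj (f z) * g z = v z + w z

/-- The Hankel operator with symbol `f̄` is Hilbert-Schmidt: its domain is dense in `A²(Ω)`, and it
extends to a bounded operator `T : A²(Ω) → L²(Ω)` with `∑ ‖T b_i‖² < ∞` for an orthonormal basis
`b` of `A²(Ω)`. -/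
def IsHilbertSchmidtHankel (Ω : Set (Fin n → ℂ)) (f : (Fin n → ℂ) → ℂ) : Prop :=
  (bergman Ω : Set (L2 Ω)) ⊆ closure (hankelDomain Ω f) ∧
  ∃ T : bergman Ω →L[ℂ] L2 Ω,
    (∀ g : bergman Ω, (g : L2 Ω) ∈ hankelDomain Ω f → IsHankelValue Ω f g (T g)) ∧
    ∃ (ι : Type) (b : HilbertBasis ι ℂ (bergman Ω)), Summable fun i => ‖T (b i)‖ ^ 2

end Pool.Agent.Y259.RH
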