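import Mathlib

set_option autoImplicit false

open MeasureTheory Set Filter Topology ComplexConjugate UnitAddTorus
open scoped ENNReal

namespace Pool.Agent.Y259.RH

variable {n : ℕ}

/-- normalised Haar measure on the torus -/
noncomputable def τ (n : ℕ) : Measure (UnitAddTorus (Fin n)) :=
  Measure.pi (fun _ => AddCircle.haarAddCircle)

instance : IsProbabilityMeasure (τ n) := by unfold τ; infer_instance
instance : (τ n).IsOpenPosMeasure := by unfold τ; infer_instance
instance : (τ n).IsAddHaarMeasure := by unfold τ; infer_instance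

/-- rotation of the coordinates -/
noncomputable def rot (t : UnitAddTorus (Fin n)) (z : Fin n → ℂ) : Fin n → ℂ :=
  fun j => (AddCircle.toCircle (t j) : ℂ) * z j

lemma rot_zero (z : Fin n → ℂ) : rot 0 z = z := by
  funext j
  simp [rot]

lemma rot_add (s t : UnitAddTorus (Fin n)) (z : Fin n → ℂ) : rot (s + t) z = rot s (rot t z) := by
  funext j
  simp only [rot, Pi.add_apply, AddCircle.toCircle_add, Circle.coe_mul]
  ring

lemma continuous_rot : Continuous (fun p : UnitAddTorus (Fin n) × (Fin n → ℂ) => rot p.1 p.2) := by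
  unfold rot
  apply continuous_pi
  intro j
  apply Continuous.mul
  · exact continuous_subtype_val.comp (AddCircle.continuous_toCircle.comp
      ((continuous_apply j).comp continuous_fst))
  · exact (continuous_apply j).comp continuous_snd

lemma rot_smul (t : UnitAddTorus (Fin n)) (c : ℂ) (z : Fin n → ℂ) : rot t (c • z) = c • rot t z := by
  funext j
  simp [rot]
  ring

/-- rotation as a linear isometry equivalence (sup norm) -/
noncomputable def rotL (t : UnitAddTorus (Fin n)) : (Fin n → ℂ) ≃ₗᵢ[ℂ] (Fin n → ℂ) where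
  toFun := rot t
  invFun := rot (-t)
  map_add' := by
    intro x y
    funext j
    simp [rot]
    ring
  map_smul' := by
    intro c z
    exact rot_smul t c z
  left_inv := by
    intro z
    rw [← rot_add, neg_add_cancel, rot_zero]
  right_inv := by
    intro z
    rw [← rot_add, add_neg_cancel, rot_zero]
  norm_map' := by
    intro z
    simp only [Pi.norm_def]
    congr 1
    apply Finset.sup_congr rfl
    intro j _
    have : ‖(AddCircle.toCircle (t j) : ℂ) * z j‖₊ = ‖z j‖₊ := by
      rw [← NNReal.coe_inj]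
      simp only [coe_nnnorm, norm_mul, Circle.norm_coe, one_mul]
    exact this

lemma rotL_apply (t : UnitAddTorus (Fin n)) (z : Fin n → ℂ) : rotL t z = rot t z := rfl

lemma measurePreserving_rot (t : UnitAddTorus (Fin n)) :
    MeasurePreserving (rot t) (volume : Measure (Fin n → ℂ)) volume := by
  have h : ∀ j : Fin n, MeasurePreserving (fun w : ℂ => (AddCircle.toCircle (t j) : ℂ) * w) volume volume := by
    intro j
    exact (rotation (AddCircle.toCircle (t j))).measurePreserving
  exact volume_preserving_pi h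

/-- invariance under rotations -/
def RotInv (K : Set (Fin n → ℂ)) : Prop := ∀ (t : UnitAddTorus (Fin n)), ∀ z ∈ K, rot t z ∈ K

lemma RotInv.mem_iff {K : Set (Fin n → ℂ)} (h : RotInv K) (t : UnitAddTorus (Fin n)) (z : Fin n → ℂ) :
    rot t z ∈ K ↔ z ∈ K := by
  refine ⟨fun hz => ?_, h t z⟩
  have := h (-t) _ hz
  rwa [← rot_add, neg_add_cancel, rot_zero] at this

lemma RotInv.preimage {K : Set (Fin n → ℂ)} (h : RotInv K) (t : UnitAddTorus (Fin n)) :
    rot t ⁻¹' K = K := by
  ext z
  exact h.mem_iff t z

lemma RotInv.measurePreserving {K : Set (Fin n → ℂ)} (h : RotInv K) (hK : MeasurableSet K)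
    (t : UnitAddTorus (Fin n)) :
    MeasurePreserving (rot t) ((volume : Measure (Fin n → ℂ)).restrict K) (volume.restrict K) := by
  have := (measurePreserving_rot t).restrict_preimage hK
  rwa [h.preimage t] at this

lemma rot_measurableEmbedding (t : UnitAddTorus (Fin n)) : MeasurableEmbedding (rot t) :=
  (rotL t).toHomeomorph.measurableEmbedding

lemma norm_mFourier (w : Fin n → ℤ) (t : UnitAddTorus (Fin n)) : ‖mFourier w t‖ = 1 := by
  simp only [mFourier, fourier_apply, ContinuousMap.coe_mk, norm_prod, Circle.norm_coe,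
      Finset.prod_const_one]

lemma mFourier_mul_neg (w : Fin n → ℤ) (t : UnitAddTorus (Fin n)) :
    mFourier (-w) t * mFourier w t = 1 := by
  rw [← mFourier_add, neg_add_cancel, mFourier_zero]
  rfl

lemma mFourier_add_arg (w : Fin n → ℤ) (s t : UnitAddTorus (Fin n)) :
    mFourier w (s + t) = mFourier w s * mFourier w t := by
  simp only [mFourier, fourier_apply, ContinuousMap.coe_mk, Pi.add_apply, smul_add,
    AddCircle.toCircle_add, Circle.coe_mul, Finset.prod_mul_distrib]

lemma exists_mFourier_ne_one {w : Fin n → ℤ} (hw : w ≠ 0) :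
    ∃ t : UnitAddTorus (Fin n), mFourier w t ≠ 1 := by
  classical
  obtain ⟨j, hj⟩ := Function.ne_iff.mp hw
  simp only [Pi.zero_apply] at hj
  refine ⟨Pi.single j (((1 / (2 * (w j : ℝ)) : ℝ)) : UnitAddCircle), ?_⟩
  have h1 : mFourier w (Pi.single j (((1 / (2 * (w j : ℝ)) : ℝ)) : UnitAddCircle)) =
      fourier (w j) (((1 / (2 * (w j : ℝ)) : ℝ)) : UnitAddCircle) := by
    simp only [mFourier, ContinuousMap.coe_mk]
    rw [Finset.prod_eq_single j]
    · simp
    · intro b _ hb
      simp [Pi.single_eq_of_ne hb]
    · simp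
  rw [h1, fourier_coe_apply]
  have hjr : (w j : ℂ) ≠ 0 := by exact_mod_cast hj
  have h2 : 2 * (Real.pi : ℂ) * Complex.I * (w j : ℂ) * ((1 / (2 * (w j : ℝ)) : ℝ) : ℂ) / ((1:ℝ) : ℂ) =
      Real.pi * Complex.I := by
    push_cast
    field_simp
  rw [h2, Complex.exp_pi_mul_I]
  norm_num

end Pool.Agent.Y259.RH
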