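import Mathlib
import Pool.Agent.Y259.RH.Torus

set_option autoImplicit false

open MeasureTheory Set Filter Topology ComplexConjugate UnitAddTorus Metric
open scoped ENNReal

namespace Pool.Agent.Y259.RH

section ident

variable {V : Type} [NormedAddCommGroup V] [NormedSpace ℂ V]

/-- A holomorphic function on a ball vanishing near the centre vanishes. -/
theorem zero_on_ball {f : V → ℂ} {x : V} {r : ℝ} (hf : DifferentiableOn ℂ f (ball x r))
    (h : ∀ᶠ y in 𝓝 x, f y = 0) : ∀ y ∈ ball x r, f y = 0 := by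
  intro y hy
  by_cases hxy : y = x
  · rw [hxy]
    exact h.self_of_nhds
  have hd : 0 < ‖y - x‖ := norm_pos_iff.2 (sub_ne_zero.2 hxy)
  have hyr : ‖y - x‖ < r := by rwa [mem_ball, dist_eq_norm] at hy
  set g : ℂ → ℂ := fun t => f (x + t • (y - x)) with hg
  have hmaps : MapsTo (fun t : ℂ => x + t • (y - x)) (ball (0 : ℂ) (r / ‖y - x‖)) (ball x r) := by
    intro t ht
    rw [mem_ball, dist_zero_right, lt_div_iff₀ hd] at ht
    rw [mem_ball, dist_eq_norm, add_sub_cancel_left, norm_smul]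
    exact ht
  have hgd : DifferentiableOn ℂ g (ball (0 : ℂ) (r / ‖y - x‖)) := by
    refine hf.comp ?_ hmaps
    exact ((differentiable_const x).add (differentiable_id.smul_const (y - x))).differentiableOn
  have hga : AnalyticOnNhd ℂ g (ball (0 : ℂ) (r / ‖y - x‖)) := hgd.analyticOnNhd isOpen_ball
  have hr : 0 < r := hd.trans hyr
  have h0 : (0 : ℂ) ∈ ball (0 : ℂ) (r / ‖y - x‖) := mem_ball_self (by positivity)
  have hz : g =ᶠ[𝓝 0] 0 := by
    have hcont : Continuous (fun t : ℂ => x + t • (y - x)) :=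
      continuous_const.add (continuous_id.smul continuous_const)
    have ht : Tendsto (fun t : ℂ => x + t • (y - x)) (𝓝 0) (𝓝 x) := by
      have := hcont.tendsto 0
      simpa using this
    exact ht.eventually h
  have h1 : (1 : ℂ) ∈ ball (0 : ℂ) (r / ‖y - x‖) := by
    rw [mem_ball, dist_zero_right, norm_one, lt_div_iff₀ hd, one_mul]
    exact hyr
  have := hga.eqOn_zero_of_preconnected_of_eventuallyEq_zero
    (convex_ball (0 : ℂ) _).isPreconnected h0 hz h1
  simpa [hg] using this

/-- Identity theorem. -/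
theorem ident {Ω : Set V} {f : V → ℂ} (hΩ : IsOpen Ω) (hc : IsPreconnected Ω)
    (hf : DifferentiableOn ℂ f Ω) {x₀ : V} (hx₀ : x₀ ∈ Ω) (h : ∀ᶠ x in 𝓝 x₀, f x = 0) :
    ∀ x ∈ Ω, f x = 0 := by
  set A : Set V := {x | ∀ᶠ y in 𝓝 x, f y = 0} with hA
  have hAo : IsOpen A := by
    rw [isOpen_iff_mem_nhds]
    intro x hx
    exact eventually_eventually_nhds.2 hx
  have hsub : Ω ⊆ A := by
    refine hc.subset_of_closure_inter_subset hAo ⟨x₀, hx₀, h⟩ ?_
    rintro y ⟨hyc, hyΩ⟩
    obtain ⟨r, hr, hball⟩ := Metric.isOpen_iff.1 hΩ y hyΩ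
    obtain ⟨x, hxA, hxy⟩ := Metric.mem_closure_iff.1 hyc (r / 2) (by linarith)
    have hsub' : ball x (r / 2) ⊆ Ω := by
      intro z hz
      apply hball
      rw [mem_ball] at hz ⊢
      calc dist z y ≤ dist z x + dist x y := dist_triangle _ _ _
        _ < r / 2 + r / 2 := add_lt_add hz (by rwa [dist_comm])
        _ = r := by ring
    have hz := zero_on_ball (hf.mono hsub') hxA
    have hy : y ∈ ball x (r / 2) := hxy
    exact (isOpen_ball.mem_nhds hy |> Filter.eventually_of_mem) hz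
  exact fun x hx => (hsub hx).self_of_nhds

end ident

variable {n : ℕ}

/-- `g` is homogeneous of weight `δ` under the torus action, on `Ω` -/
def HasWt (Ω : Set (Fin n → ℂ)) (δ : Fin n → ℤ) (g : (Fin n → ℂ) → ℂ) : Prop :=
  ∀ z ∈ Ω, ∀ t, g (rot t z) = mFourier δ t * g z

lemma rot_coe (x : Fin n → ℝ) (z : Fin n → ℂ) :
    rot (fun j => ((x j / (2 * Real.pi) : ℝ) : UnitAddCircle)) z =
      fun j => z j * Complex.exp (Complex.I * (x j : ℂ)) := by
  funext j
  simp only [rot]
  have h := fourier_coe_apply (T := 1) (n := 1) (x := x j / (2 * Real.pi))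
  rw [fourier_one] at h
  rw [h, mul_comm]
  congr 2
  have : (Real.pi : ℂ) ≠ 0 := by exact_mod_cast Real.pi_ne_zero
  push_cast
  field_simp

/-- a nonempty open set contains a point all of whose coordinates are nonzero -/
lemma exists_ne_zero {U : Set (Fin n → ℂ)} (hU : IsOpen U) {z : Fin n → ℂ} (hz : z ∈ U) :
    ∃ w ∈ U, ∀ j, w j ≠ 0 := by
  classical
  obtain ⟨ε, hε, hb⟩ := Metric.isOpen_iff.1 hU z hz
  refine ⟨fun j => if z j = 0 then ((ε / 2 : ℝ) : ℂ) else z j, hb ?_, fun j => ?_⟩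
  · rw [mem_ball, dist_pi_lt_iff hε]
    intro j
    by_cases h : z j = 0
    · simp only [h, if_true, dist_zero_right, Complex.norm_real, Real.norm_eq_abs]
      rw [abs_of_pos (by linarith)]
      linarith
    · simp only [h, if_false, dist_self]
      exact hε
  · by_cases h : z j = 0
    · simp only [h, if_true]
      have : (ε / 2 : ℝ) ≠ 0 := by positivity
      exact_mod_cast this
    · simp [h]

/-- a holomorphic function vanishing at the real points of a ball vanishes on the ball -/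
lemma zero_of_real {Q : (Fin n → ℂ) → ℂ} {r : ℝ} (hQ : DifferentiableOn ℂ Q (ball 0 r))
    (h : ∀ x : Fin n → ℝ, (fun j => (x j : ℂ)) ∈ ball (0 : Fin n → ℂ) r → Q (fun j => (x j : ℂ)) = 0) :
    ∀ w ∈ ball (0 : Fin n → ℂ) r, Q w = 0 := by
  intro w hw
  have hr : 0 < r := pos_of_mem_ball hw
  rw [mem_ball_zero_iff, pi_norm_lt_iff hr] at hw
  set x : Fin n → ℂ := fun j => ((w j).re : ℂ) with hx
  set y : Fin n → ℂ := fun j => ((w j).im : ℂ) with hy
  have hxy : x + Complex.I • y = w := by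
    funext j
    simp only [hx, hy, Pi.add_apply, Pi.smul_apply, smul_eq_mul]
    rw [mul_comm, Complex.re_add_im]
  set L : Set ℂ := {l | x + l • y ∈ ball (0 : Fin n → ℂ) r} with hL
  have hcont : Continuous (fun l : ℂ => x + l • y) := by fun_prop
  have hLo : IsOpen L := isOpen_ball.preimage hcont
  have hLc : Convex ℝ L := by
    intro a ha b hb s t hs ht hst
    have h1 : x + (s • a + t • b) • y = s • (x + a • y) + t • (x + b • y) := by
      have : x = s • x + t • x := by rw [← add_smul, hst, one_smul]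
      conv_lhs => rw [this]
      rw [smul_add, smul_add, add_smul, smul_assoc, smul_assoc]
      abel
    show x + (s • a + t • b) • y ∈ ball (0 : Fin n → ℂ) r
    rw [h1]
    exact (convex_ball (0 : Fin n → ℂ) r) ha hb hs ht hst
  have hx0 : x ∈ ball (0 : Fin n → ℂ) r := by
    rw [mem_ball_zero_iff, pi_norm_lt_iff hr]
    intro j
    refine lt_of_le_of_lt ?_ (hw j)
    simp only [hx, Complex.norm_real]
    exact Complex.abs_re_le_norm _
  have h0L : (0 : ℂ) ∈ L := by
    show x + (0:ℂ) • y ∈ ball (0 : Fin n → ℂ) r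
    rwa [zero_smul, add_zero]
  have hIL : Complex.I ∈ L := by
    show x + Complex.I • y ∈ ball (0 : Fin n → ℂ) r
    rw [hxy, mem_ball_zero_iff, pi_norm_lt_iff hr]
    exact hw
  set g : ℂ → ℂ := fun l => Q (x + l • y) with hg
  have hgd : DifferentiableOn ℂ g L := by
    have hd : DifferentiableOn ℂ (fun l : ℂ => x + l • y) L :=
      (by fun_prop : Differentiable ℂ (fun l : ℂ => x + l • y)).differentiableOn
    exact DifferentiableOn.comp (t := ball (0 : Fin n → ℂ) r) hQ hd (fun l hl => hl)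
  have hga : AnalyticOnNhd ℂ g L := hgd.analyticOnNhd hLo
  have hreal : ∀ s : ℝ, (s : ℂ) ∈ L → g s = 0 := by
    intro s hs
    have e : x + (s : ℂ) • y = fun j => (((w j).re + s * (w j).im : ℝ) : ℂ) := by
      funext j
      simp [hx, hy]
    have h2 : x + (s : ℂ) • y ∈ ball (0 : Fin n → ℂ) r := hs
    simp only [hg]
    rw [e] at h2 ⊢
    exact h _ h2
  have hfreq : ∃ᶠ l in 𝓝[≠] (0 : ℂ), g l = 0 := by
    have ht : Tendsto (fun s : ℝ => (s : ℂ)) (𝓝[≠] 0) (𝓝[≠] 0) := by
      apply tendsto_nhdsWithin_of_tendsto_nhds_of_eventually_within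
      · have : Tendsto (fun s : ℝ => (s : ℂ)) (𝓝 0) (𝓝 ((0:ℝ):ℂ)) :=
          (Complex.continuous_ofReal).tendsto 0
        simpa using this.mono_left nhdsWithin_le_nhds
      · filter_upwards [self_mem_nhdsWithin] with s hs
        simpa using hs
    apply ht.frequently
    apply Eventually.frequently
    have hLn : ∀ᶠ l in 𝓝[≠] (0:ℂ), l ∈ L := nhdsWithin_le_nhds (hLo.mem_nhds h0L)
    filter_upwards [ht.eventually hLn] with s hs using hreal s hs
  have := hga.eqOn_zero_of_preconnected_of_frequently_eq_zero hLc.isPreconnected h0L hfreq hIL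
  simp only [hg, hxy] at this
  exact this

/-- holomorphic functions of the same weight are proportional -/
theorem uniq {Ω : Set (Fin n → ℂ)} (hΩ : IsOpen Ω) (hc : IsPreconnected Ω)
    {δ : Fin n → ℤ} {g₁ g₂ : (Fin n → ℂ) → ℂ} (h₁ : DifferentiableOn ℂ g₁ Ω)
    (h₂ : DifferentiableOn ℂ g₂ Ω) (w₁ : HasWt Ω δ g₁) (w₂ : HasWt Ω δ g₂) {z₀ : Fin n → ℂ}
    (hz₀ : z₀ ∈ Ω) (hne : g₂ z₀ ≠ 0) : ∃ c : ℂ, ∀ z ∈ Ω, g₁ z = c * g₂ z := by
  have hU : IsOpen (Ω ∩ g₂ ⁻¹' {0}ᶜ) := h₂.continuousOn.isOpen_inter_preimage hΩ isOpen_compl_singleton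
  obtain ⟨p, ⟨hpΩ, hp2⟩, hpj⟩ := exists_ne_zero hU ⟨hz₀, hne⟩
  have hp2' : g₂ p ≠ 0 := hp2
  refine ⟨g₁ p / g₂ p, ?_⟩
  set c := g₁ p / g₂ p with hcdef
  set G : (Fin n → ℂ) → ℂ := fun z => g₁ z - c * g₂ z with hG
  have hGd : DifferentiableOn ℂ G Ω := h₁.sub (h₂.const_mul c)
  have hGp : G p = 0 := by
    simp only [hG, hcdef]
    field_simp
    ring
  have hGw : ∀ t, G (rot t p) = 0 := by
    intro t
    have : G (rot t p) = mFourier δ t * G p := by
      simp only [hG, w₁ p hpΩ t, w₂ p hpΩ t]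
      ring
    rw [this, hGp, mul_zero]
  set φ : (Fin n → ℂ) → (Fin n → ℂ) := fun w j => p j * Complex.exp (Complex.I * w j) with hφ
  have hφd : Differentiable ℂ φ := by
    rw [differentiable_pi]
    intro j
    simp only [hφ]
    fun_prop
  have hφ0 : φ 0 = p := by
    funext j
    simp [hφ]
  have hev : ∀ᶠ w in 𝓝 (0 : Fin n → ℂ), φ w ∈ Ω := by
    apply hφd.continuous.continuousAt.eventually
    rw [hφ0]
    exact hΩ.mem_nhds hpΩ
  obtain ⟨r, hr, hball⟩ := Metric.eventually_nhds_iff_ball.1 hev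
  have hzero : ∀ w ∈ ball (0 : Fin n → ℂ) r, G (φ w) = 0 := by
    apply zero_of_real (Q := fun w => G (φ w))
    · exact hGd.comp hφd.differentiableOn hball
    · intro x _
      have h3 := rot_coe x p
      have h4 : φ (fun j => (x j : ℂ)) = fun j => p j * Complex.exp (Complex.I * (x j : ℂ)) := rfl
      show G (φ (fun j => (x j : ℂ))) = 0
      rw [h4, ← h3]
      exact hGw _
  have hnear : ∀ᶠ z in 𝓝 p, G z = 0 := by
    set ψ : (Fin n → ℂ) → (Fin n → ℂ) := fun z j => -Complex.I * Complex.log (z j / p j) with hψ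
    have hψc : ContinuousAt ψ p := by
      rw [continuousAt_pi]
      intro j
      simp only [hψ]
      apply ContinuousAt.mul continuousAt_const
      apply ContinuousAt.clog
      · exact ((continuous_apply j).continuousAt).div_const _
      · rw [div_self (hpj j)]
        exact Complex.one_mem_slitPlane
    have hψ0 : ψ p = 0 := by
      funext j
      simp [hψ, div_self (hpj j)]
    have h5 : ∀ᶠ z in 𝓝 p, ψ z ∈ ball (0 : Fin n → ℂ) r := by
      apply hψc.eventually
      rw [hψ0]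
      exact ball_mem_nhds _ hr
    have h6 : ∀ᶠ z in 𝓝 p, ∀ j, z j ≠ 0 := by
      rw [eventually_all]
      intro j
      exact ((continuous_apply j).continuousAt).eventually_ne (hpj j)
    filter_upwards [h5, h6] with z hz hzj
    have h7 : φ (ψ z) = z := by
      funext j
      simp only [hφ, hψ]
      rw [show Complex.I * (-Complex.I * Complex.log (z j / p j)) = Complex.log (z j / p j) by
        rw [← mul_assoc, mul_neg, Complex.I_mul_I, neg_neg, one_mul]]
      rw [Complex.exp_log (div_ne_zero (hzj j) (hpj j)), mul_div_cancel₀ _ (hpj j)]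
    rw [← h7]
    exact hzero _ hz
  intro z hz
  have := ident hΩ hc hGd hpΩ hnear z hz
  exact sub_eq_zero.1 this

end Pool.Agent.Y259.RH
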