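import Mathlib
import Pool.Agent.Helper540.Holo
import Pool.Agent.Y259.RH.Uniq

set_option autoImplicit false

open MeasureTheory Set Filter Topology ComplexConjugate UnitAddTorus Metric
open scoped ENNReal

namespace Pool.Agent.Y259.RH

variable {n : ℕ}

lemma mFourier_neg_neg (w : Fin n → ℤ) (s : UnitAddTorus (Fin n)) :
    mFourier (-w) (-s) = mFourier w s := by
  have h1 : mFourier (-w) (-s) * mFourier (-w) s = 1 := by
    rw [← mFourier_add_arg, neg_add_cancel]
    simp [mFourier]
  have h2 := mFourier_mul_neg w s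
  have h3 : mFourier (-w) s ≠ 0 := by
    intro h
    rw [h] at h2
    simp at h2
  apply mul_right_cancel₀ h3
  rw [h1, mul_comm, h2]

/-- the Fourier component of weight `δ` of `g` -/
noncomputable def comp (δ : Fin n → ℤ) (g : (Fin n → ℂ) → ℂ) (z : Fin n → ℂ) : ℂ :=
  ∫ t, mFourier (-δ) t * g (rot t z) ∂(τ n)

lemma comp_wt (Ω : Set (Fin n → ℂ)) (δ : Fin n → ℤ) (g : (Fin n → ℂ) → ℂ) :
    HasWt Ω δ (comp δ g) := by
  intro z _ s
  unfold comp
  have h1 : ∀ t, mFourier (-δ) t * g (rot t (rot s z)) =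
      (fun u => mFourier δ s * (mFourier (-δ) u * g (rot u z))) (t + s) := by
    intro t
    simp only
    rw [← rot_add, mFourier_add_arg]
    have h2 := mFourier_mul_neg δ s
    linear_combination (- mFourier (-δ) t * g (rot (t + s) z)) * h2
  simp_rw [h1]
  rw [integral_add_right_eq_self (μ := τ n) (fun u => mFourier δ s * (mFourier (-δ) u * g (rot u z))) s,
    integral_const_mul]

lemma continuous_orbit {Ω : Set (Fin n → ℂ)} (hR : RotInv Ω) {g : (Fin n → ℂ) → ℂ}
    (hg : ContinuousOn g Ω) {z : Fin n → ℂ} (hz : z ∈ Ω) :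
    Continuous (fun t => g (rot t z)) := by
  have h1 : Continuous (fun t : UnitAddTorus (Fin n) => rot t z) :=
    continuous_rot.comp (continuous_id.prodMk continuous_const)
  exact hg.comp_continuous h1 (fun t => hR t z hz)

lemma continuous_mF (w : Fin n → ℤ) : Continuous (fun t => mFourier w t) := (mFourier w).continuous

/-- bound on the orbit of a compact set -/
lemma orbit_bound {Ω : Set (Fin n → ℂ)} (hR : RotInv Ω) {E : Type*} [NormedAddCommGroup E]
    {g : (Fin n → ℂ) → E}
    (hg : ContinuousOn g Ω) {C : Set (Fin n → ℂ)} (hC : IsCompact C) (hCΩ : C ⊆ Ω) :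
    ∃ M : ℝ, ∀ t, ∀ z ∈ C, ‖g (rot t z)‖ ≤ M := by
  have h1 : IsCompact ((univ : Set (UnitAddTorus (Fin n))) ×ˢ C) := isCompact_univ.prod hC
  have h2 : ContinuousOn (fun p : UnitAddTorus (Fin n) × (Fin n → ℂ) => g (rot p.1 p.2))
      ((univ : Set (UnitAddTorus (Fin n))) ×ˢ C) := by
    apply hg.comp continuous_rot.continuousOn
    rintro ⟨t, z⟩ ⟨_, hz⟩
    exact hR t z (hCΩ hz)
  obtain ⟨M, hM⟩ := h1.exists_bound_of_continuousOn h2
  exact ⟨M, fun t z hz => hM (t, z) ⟨mem_univ _, hz⟩⟩

/-- rotation as a continuous linear map -/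
noncomputable def rotC (t : UnitAddTorus (Fin n)) : (Fin n → ℂ) →L[ℂ] (Fin n → ℂ) :=
  (rotL t).toLinearIsometry.toContinuousLinearMap

lemma rotC_apply (t : UnitAddTorus (Fin n)) (z : Fin n → ℂ) : rotC t z = rot t z := rfl

lemma comp_differentiableOn {Ω : Set (Fin n → ℂ)} (hΩ : IsOpen Ω) (hR : RotInv Ω) (δ : Fin n → ℤ)
    {g : (Fin n → ℂ) → ℂ} (hg : DifferentiableOn ℂ g Ω) : DifferentiableOn ℂ (comp δ g) Ω := by
  have hc1 : ContDiffOn ℂ 1 g Ω := by
    exact_mod_cast Helper540.contDiffOn_of_differentiableOn hΩ hg 1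
  have hfc : ContinuousOn (fderiv ℂ g) Ω := hc1.continuousOn_fderiv_of_isOpen hΩ le_rfl
  intro z₀ hz₀
  obtain ⟨r, hr, hball⟩ := Metric.isOpen_iff.1 hΩ z₀ hz₀
  have hcb : closedBall z₀ (r / 2) ⊆ Ω := (closedBall_subset_ball (by linarith)).trans hball
  obtain ⟨M, hM⟩ := orbit_bound hR hfc (isCompact_closedBall z₀ (r / 2)) hcb
  set F' : (Fin n → ℂ) → UnitAddTorus (Fin n) → ((Fin n → ℂ) →L[ℂ] ℂ) := fun z t =>
    mFourier (-δ) t • ((fderiv ℂ g (rot t z)).comp (rotC t)) with hF'
  have hnr : ∀ t : UnitAddTorus (Fin n), ‖(rotC t)‖ ≤ 1 := by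
    intro t
    apply ContinuousLinearMap.opNorm_le_bound _ zero_le_one
    intro x
    rw [one_mul]
    exact ((rotL t).norm_map x).le
  have hcl : ∀ z ∈ Ω, Continuous (fun t => (rot t z)) := fun z _ =>
    continuous_rot.comp (continuous_id.prodMk continuous_const)
  have key := hasFDerivAt_integral_of_dominated_of_fderiv_le (𝕜 := ℂ) (μ := τ n)
    (F := fun z t => mFourier (-δ) t * g (rot t z)) (F' := F') (x₀ := z₀)
    (s := closedBall z₀ (r / 2)) (bound := fun _ => M) (closedBall_mem_nhds _ (by linarith))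
    ?_ ?_ ?_ ?_ ?_ ?_
  · exact key.differentiableAt.differentiableWithinAt
  · filter_upwards [hΩ.mem_nhds hz₀] with z hz
    exact ((continuous_mF _).mul (continuous_orbit hR hg.continuousOn hz)).aestronglyMeasurable
  · exact ((continuous_mF _).mul (continuous_orbit hR hg.continuousOn hz₀)).integrable_of_hasCompactSupport
      (HasCompactSupport.of_compactSpace _)
  · -- measurability of F' z₀
    apply Continuous.aestronglyMeasurable
    simp only [hF']
    apply Continuous.smul (continuous_mF _)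
    -- continuity in operator norm; finite dimension: check pointwise
    rw [continuous_clm_apply]
    intro v
    have e : (fun t => ((fderiv ℂ g (rot t z₀)).comp (rotC t)) v) =
        fun t => (fderiv ℂ g (rot t z₀)) (rot t v) := by
      funext t
      rfl
    rw [e]
    have h1 : Continuous (fun t => fderiv ℂ g (rot t z₀)) :=
      hfc.comp_continuous (hcl z₀ hz₀) (fun t => hR t z₀ hz₀)
    exact h1.clm_apply (continuous_rot.comp (continuous_id.prodMk continuous_const))
  · refine Eventually.of_forall (fun t z hz => ?_)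
    simp only [hF', norm_smul, norm_mFourier, one_mul]
    calc _ ≤ ‖fderiv ℂ g (rot t z)‖ * ‖(rotC t)‖ :=
          ContinuousLinearMap.opNorm_comp_le _ _
      _ ≤ ‖fderiv ℂ g (rot t z)‖ * 1 := mul_le_mul_of_nonneg_left (hnr t) (norm_nonneg _)
      _ ≤ M := by rw [mul_one]; exact hM t z hz
  · exact integrable_const _
  · refine Eventually.of_forall (fun t z hz => ?_)
    have h1 : HasFDerivAt g (fderiv ℂ g (rot t z)) (rot t z) :=
      (hg.differentiableAt (hΩ.mem_nhds (hR t z (hcb hz)))).hasFDerivAt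
    have h2 : HasFDerivAt (rot t) (rotC t) z :=
      (rotC t).hasFDerivAt
    exact (h1.comp z h2).const_mul (mFourier (-δ) t)

end Pool.Agent.Y259.RH
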