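import Mathlib
import Pool.Agent.Y259.RH.Comp

set_option autoImplicit false

open MeasureTheory Set Filter Topology ComplexConjugate UnitAddTorus Metric
open scoped ENNReal

namespace Pool.Agent.Y259.RH

variable {n : ℕ}

lemma aesm_rot {Ω K : Set (Fin n → ℂ)} (hR : RotInv Ω) (hKΩ : K ⊆ Ω) (hK : MeasurableSet K)
    {g : (Fin n → ℂ) → ℂ} (hg : ContinuousOn g Ω) :
    AEStronglyMeasurable (fun p : UnitAddTorus (Fin n) × (Fin n → ℂ) => g (rot p.1 p.2))
      ((τ n).prod ((volume : Measure (Fin n → ℂ)).restrict K)) := by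
  have h1 : (τ n).prod ((volume : Measure (Fin n → ℂ)).restrict K) =
      ((τ n).prod (volume : Measure (Fin n → ℂ))).restrict (univ ×ˢ K) := by
    rw [← Measure.prod_restrict, Measure.restrict_univ]
  rw [h1]
  apply ContinuousOn.aestronglyMeasurable _ (MeasurableSet.univ.prod hK)
  apply hg.comp continuous_rot.continuousOn
  rintro ⟨t, z⟩ ⟨_, hz⟩
  exact hR t z (hKΩ hz)

/-- Integration against a function of pure weight only sees one Fourier component. -/
theorem avg {Ω K : Set (Fin n → ℂ)} (hR : RotInv Ω) (hKΩ : K ⊆ Ω) (hKR : RotInv K)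
    (hK : MeasurableSet K) {φ ψ : (Fin n → ℂ) → ℂ} (hφ : ContinuousOn φ Ω)
    (hψ : AEStronglyMeasurable ψ ((volume : Measure (Fin n → ℂ)).restrict K)) {w : Fin n → ℤ}
    (hw : HasWt K (-w) ψ)
    (hint : Integrable (fun z => φ z * ψ z) ((volume : Measure (Fin n → ℂ)).restrict K)) :
    ∫ z in K, φ z * ψ z = ∫ z in K, comp w φ z * ψ z := by
  set μ := (volume : Measure (Fin n → ℂ)).restrict K with hμ
  -- invariance
  have hinv : ∀ t : UnitAddTorus (Fin n),
      ∫ z, mFourier (-w) t * φ (rot t z) * ψ z ∂μ = ∫ z, φ z * ψ z ∂μ := by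
    intro t
    have h1 := (hKR.measurePreserving hK t).integral_comp (rot_measurableEmbedding t)
      (fun z => φ z * ψ z)
    rw [← hμ] at h1
    rw [← h1]
    apply integral_congr_ae
    filter_upwards [ae_restrict_mem hK] with z hz
    rw [hw z hz t]
    ring
  have hInt : Integrable (Function.uncurry fun (t : UnitAddTorus (Fin n)) (z : Fin n → ℂ) =>
      mFourier (-w) t * φ (rot t z) * ψ z) ((τ n).prod μ) := by
    have hm : AEStronglyMeasurable (Function.uncurry fun (t : UnitAddTorus (Fin n)) (z : Fin n → ℂ) =>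
      mFourier (-w) t * φ (rot t z) * ψ z) ((τ n).prod μ) := by
      apply AEStronglyMeasurable.mul
      · apply AEStronglyMeasurable.mul
        · exact ((continuous_mF (-w)).comp continuous_fst).aestronglyMeasurable
        · exact aesm_rot hR hKΩ hK hφ
      · exact hψ.comp_snd
    refine ⟨hm, ?_⟩
    rw [HasFiniteIntegral, lintegral_prod _ hm.enorm]
    have h2 : ∀ t : UnitAddTorus (Fin n), ∫⁻ z, ‖mFourier (-w) t * φ (rot t z) * ψ z‖ₑ ∂μ =
        ∫⁻ z, ‖φ z * ψ z‖ₑ ∂μ := by
      intro t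
      have h1 := (hKR.measurePreserving hK t).lintegral_comp_emb (rot_measurableEmbedding t)
        (fun z => ‖φ z * ψ z‖ₑ)
      rw [← hμ] at h1
      rw [← h1]
      apply lintegral_congr_ae
      filter_upwards [ae_restrict_mem hK] with z hz
      rw [hw z hz t]
      congr 1
      ring
    simp only [Function.uncurry_apply_pair]
    simp_rw [h2]
    rw [lintegral_const, measure_univ, mul_one]
    exact hint.2
  calc ∫ z, φ z * ψ z ∂μ = ∫ _t : UnitAddTorus (Fin n), (∫ z, φ z * ψ z ∂μ) ∂(τ n) := by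
        rw [integral_const]; simp
    _ = ∫ t : UnitAddTorus (Fin n), (∫ z, mFourier (-w) t * φ (rot t z) * ψ z ∂μ) ∂(τ n) := by
        simp_rw [hinv]
    _ = ∫ z, (∫ t : UnitAddTorus (Fin n), mFourier (-w) t * φ (rot t z) * ψ z ∂(τ n)) ∂μ :=
        integral_integral_swap hInt
    _ = ∫ z, comp w φ z * ψ z ∂μ := by
        congr 1
        funext z
        rw [integral_mul_const]
        rfl

/-- functions of nonzero weight have integral zero -/
theorem integral_eq_zero_of_wt {K : Set (Fin n → ℂ)} (hKR : RotInv K)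
    (hK : MeasurableSet K) {ψ : (Fin n → ℂ) → ℂ} {w : Fin n → ℤ} (hw0 : w ≠ 0)
    (hw : HasWt K w ψ) : ∫ z in K, ψ z = 0 := by
  obtain ⟨t, ht⟩ := exists_mFourier_ne_one hw0
  have h1 := (hKR.measurePreserving hK t).integral_comp (rot_measurableEmbedding t) ψ
  have h2 : ∫ z in K, ψ (rot t z) = mFourier w t * ∫ z in K, ψ z := by
    rw [← integral_const_mul]
    apply integral_congr_ae
    filter_upwards [ae_restrict_mem hK] with z hz
    exact hw z hz t
  rw [h2] at h1
  have h3 : (mFourier w t - 1) * ∫ z in K, ψ z = 0 := by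
    rw [sub_mul, h1]; ring
  rcases mul_eq_zero.1 h3 with h | h
  · exact absurd (sub_eq_zero.1 h) ht
  · exact h

lemma enorm_comp_sq_le (w : Fin n → ℤ) {Ω : Set (Fin n → ℂ)} (hR : RotInv Ω)
    {g : (Fin n → ℂ) → ℂ} (hg : ContinuousOn g Ω) {z : Fin n → ℂ} (hz : z ∈ Ω) :
    ‖comp w g z‖ₑ ^ 2 ≤ ∫⁻ t, ‖g (rot t z)‖ₑ ^ 2 ∂(τ n) := by
  have hc := continuous_orbit hR hg hz
  have h1 : ‖comp w g z‖ₑ ≤ ∫⁻ t, ‖g (rot t z)‖ₑ ∂(τ n) := by
    refine (enorm_integral_le_lintegral_enorm _).trans (le_of_eq ?_)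
    apply lintegral_congr
    intro t
    rw [enorm_mul]
    have : ‖mFourier (-w) t‖ₑ = 1 := by
      rw [← ofReal_norm, norm_mFourier, ENNReal.ofReal_one]
    rw [this, one_mul]
  have h2 : ∫⁻ t, ‖g (rot t z)‖ₑ ∂(τ n) ≤ (∫⁻ t, ‖g (rot t z)‖ₑ ^ 2 ∂(τ n)) ^ (1/2 : ℝ) := by
    have h3 := eLpNorm_le_eLpNorm_of_exponent_le (μ := τ n) (p := 1) (q := 2)
      (f := fun t => g (rot t z)) (by norm_num) hc.aestronglyMeasurable
    rw [eLpNorm_one_eq_lintegral_enorm] at h3
    refine h3.trans (le_of_eq ?_)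
    rw [eLpNorm_eq_lintegral_rpow_enorm_toReal (by norm_num) (by norm_num)]
    simp
  calc ‖comp w g z‖ₑ ^ 2 ≤ ((∫⁻ t, ‖g (rot t z)‖ₑ ^ 2 ∂(τ n)) ^ (1/2 : ℝ)) ^ 2 :=
        pow_le_pow_left' (h1.trans h2) 2
    _ = _ := by
        rw [← ENNReal.rpow_natCast, ← ENNReal.rpow_mul]
        norm_num

/-- components of square integrable functions are square integrable -/
theorem comp_memLp {Ω : Set (Fin n → ℂ)} (hΩ : IsOpen Ω) (hR : RotInv Ω) (w : Fin n → ℤ)
    {g : (Fin n → ℂ) → ℂ} (hg : DifferentiableOn ℂ g Ω)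
    (hg2 : MemLp g 2 ((volume : Measure (Fin n → ℂ)).restrict Ω)) :
    MemLp (comp w g) 2 ((volume : Measure (Fin n → ℂ)).restrict Ω) := by
  have hm : AEStronglyMeasurable (comp w g) ((volume : Measure (Fin n → ℂ)).restrict Ω) :=
    (comp_differentiableOn hΩ hR w hg).continuousOn.aestronglyMeasurable hΩ.measurableSet
  refine ⟨hm, ?_⟩
  rw [eLpNorm_lt_top_iff_lintegral_rpow_enorm_lt_top (by norm_num) (by norm_num)]
  have h0 := hg2.2
  rw [eLpNorm_lt_top_iff_lintegral_rpow_enorm_lt_top (by norm_num) (by norm_num)] at h0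
  simp only [ENNReal.toReal_ofNat, ENNReal.rpow_ofNat] at h0 ⊢
  refine lt_of_le_of_lt ?_ h0
  calc ∫⁻ z in Ω, ‖comp w g z‖ₑ ^ 2 ≤ ∫⁻ z in Ω, (∫⁻ t, ‖g (rot t z)‖ₑ ^ 2 ∂(τ n)) := by
        apply lintegral_mono_ae
        filter_upwards [ae_restrict_mem hΩ.measurableSet] with z hz
        exact enorm_comp_sq_le w hR hg.continuousOn hz
    _ = ∫⁻ t, (∫⁻ z in Ω, ‖g (rot t z)‖ₑ ^ 2) ∂(τ n) := by
        rw [lintegral_lintegral_swap]
        have h1 := aesm_rot hR Subset.rfl hΩ.measurableSet hg.continuousOn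
        have h2 : AEStronglyMeasurable (fun p : (Fin n → ℂ) × UnitAddTorus (Fin n) => g (rot p.2 p.1))
            (((volume : Measure (Fin n → ℂ)).restrict Ω).prod (τ n)) := h1.prod_swap
        exact h2.enorm.pow_const 2
    _ = ∫⁻ _t : UnitAddTorus (Fin n), (∫⁻ z in Ω, ‖g z‖ₑ ^ 2) ∂(τ n) := by
        apply lintegral_congr
        intro t
        exact (hR.measurePreserving hΩ.measurableSet t).lintegral_comp_emb
          (rot_measurableEmbedding t) (fun z => ‖g z‖ₑ ^ 2)
    _ = ∫⁻ z in Ω, ‖g z‖ₑ ^ 2 := by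
        rw [lintegral_const, measure_univ, mul_one]
    _ ≤ _ := le_rfl

lemma integral_mFourier {w : Fin n → ℤ} (hw : w ≠ 0) : ∫ t, mFourier w t ∂(τ n) = 0 := by
  obtain ⟨s, hs⟩ := exists_mFourier_ne_one hw
  have h1 := integral_add_right_eq_self (μ := τ n) (fun t => mFourier w t) s
  simp_rw [mFourier_add_arg] at h1
  rw [integral_mul_const] at h1
  have h3 : (∫ t, mFourier w t ∂(τ n)) * (mFourier w s - 1) = 0 := by
    rw [mul_sub, h1]; ring
  rcases mul_eq_zero.1 h3 with h | h
  · exact h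
  · exact absurd (sub_eq_zero.1 h) hs

/-- a continuous function on the torus all of whose Fourier coefficients vanish is zero -/
lemma eq_zero_of_coeff (Φ : C(UnitAddTorus (Fin n), ℂ))
    (h : ∀ w : Fin n → ℤ, ∫ t, mFourier w t * Φ t ∂(τ n) = 0) : Φ = 0 := by
  -- the functional ψ ↦ ∫ ψ Φ
  have hint : ∀ ψ : C(UnitAddTorus (Fin n), ℂ), Integrable (fun t => ψ t * Φ t) (τ n) := fun ψ =>
    (ψ.continuous.mul Φ.continuous).integrable_of_hasCompactSupport (HasCompactSupport.of_compactSpace _)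
  set L : C(UnitAddTorus (Fin n), ℂ) →L[ℂ] ℂ := LinearMap.mkContinuous
    { toFun := fun ψ => ∫ t, ψ t * Φ t ∂(τ n)
      map_add' := by
        intro a b
        rw [← integral_add (hint a) (hint b)]
        congr 1
        funext t
        simp [add_mul]
      map_smul' := by
        intro c a
        simp only [RingHom.id_apply, smul_eq_mul]
        rw [← integral_const_mul]
        congr 1
        funext t
        simp [mul_assoc] } ‖Φ‖ (by
      intro ψ
      simp only [LinearMap.coe_mk, AddHom.coe_mk]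
      calc ‖∫ t, ψ t * Φ t ∂(τ n)‖ ≤ ∫ t, ‖ψ‖ * ‖Φ‖ ∂(τ n) := by
            apply norm_integral_le_of_norm_le (integrable_const _)
            refine Eventually.of_forall (fun t => ?_)
            rw [norm_mul]
            exact mul_le_mul (ψ.norm_coe_le_norm t) (Φ.norm_coe_le_norm t) (norm_nonneg _) (norm_nonneg _)
        _ = ‖Φ‖ * ‖ψ‖ := by
            rw [integral_const]
            simp [mul_comm]) with hL
  have hLapp : ∀ ψ, L ψ = ∫ t, ψ t * Φ t ∂(τ n) := fun ψ => rfl
  have hker : (Submodule.span ℂ (range (mFourier (d := Fin n)))) ≤ LinearMap.ker (L : C(UnitAddTorus (Fin n), ℂ) →ₗ[ℂ] ℂ) := by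
    rw [Submodule.span_le]
    rintro _ ⟨w, rfl⟩
    show L (mFourier w) = 0
    rw [hLapp]
    exact h w
  have hclosed : IsClosed (LinearMap.ker (L : C(UnitAddTorus (Fin n), ℂ) →ₗ[ℂ] ℂ) : Set C(UnitAddTorus (Fin n), ℂ)) :=
    L.isClosed_ker
  have htop : (⊤ : Submodule ℂ C(UnitAddTorus (Fin n), ℂ)) ≤ LinearMap.ker (L : C(UnitAddTorus (Fin n), ℂ) →ₗ[ℂ] ℂ) := by
    rw [← span_mFourier_closure_eq_top]
    exact Submodule.topologicalClosure_minimal _ hker hclosed
  have h1 : L (star Φ) = 0 := htop (Submodule.mem_top (x := star Φ))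
  rw [hLapp] at h1
  have h2 : ∀ t, (star Φ) t * Φ t = ((‖Φ t‖ ^ 2 : ℝ) : ℂ) := by
    intro t
    rw [ContinuousMap.star_apply, RCLike.star_def, mul_comm, Complex.mul_conj, Complex.normSq_eq_norm_sq]
  simp_rw [h2] at h1
  have h1' : ((∫ t, ‖Φ t‖ ^ 2 ∂(τ n) : ℝ) : ℂ) = 0 := by
    rw [← integral_complex_ofReal]
    exact h1
  have h3 : ∫ t, ‖Φ t‖ ^ 2 ∂(τ n) = 0 := by exact_mod_cast h1'
  have h4 : Continuous (fun t => ‖Φ t‖ ^ 2) := Φ.continuous.norm.pow 2
  have h5 := (integral_eq_zero_iff_of_nonneg (fun t => sq_nonneg ‖Φ t‖)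
    (h4.integrable_of_hasCompactSupport (HasCompactSupport.of_compactSpace _))).1 h3
  have h6 : (fun t => ‖Φ t‖ ^ 2) = fun _ => (0:ℝ) :=
    Continuous.ae_eq_iff_eq (τ n) h4 continuous_const |>.1 h5
  ext t
  have := congrFun h6 t
  simpa using this

/-- If all Fourier components of nonzero weight vanish, the function is constant. -/
theorem const_of_comp {Ω : Set (Fin n → ℂ)} (hΩ : IsOpen Ω) (hc : IsPreconnected Ω) (hne : Ω.Nonempty)
    (hR : RotInv Ω) {f : (Fin n → ℂ) → ℂ} (hf : DifferentiableOn ℂ f Ω)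
    (h : ∀ α : Fin n → ℤ, α ≠ 0 → ∀ z ∈ Ω, comp α f z = 0) : ∃ c, ∀ z ∈ Ω, f z = c := by
  have hwt : HasWt Ω 0 f := by
    intro z hz
    have hcont := continuous_orbit hR hf.continuousOn hz
    set c0 := comp 0 f z with hc0
    set Φ : C(UnitAddTorus (Fin n), ℂ) := ⟨fun t => f (rot t z) - c0, hcont.sub continuous_const⟩ with hΦ
    have hint : ∀ w : Fin n → ℤ, Integrable (fun t => mFourier w t * f (rot t z)) (τ n) := fun w =>
      ((continuous_mF w).mul hcont).integrable_of_hasCompactSupport (HasCompactSupport.of_compactSpace _)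
    have hint2 : ∀ w : Fin n → ℤ, Integrable (fun t => mFourier w t * c0) (τ n) := fun w =>
      ((continuous_mF w).mul continuous_const).integrable_of_hasCompactSupport (HasCompactSupport.of_compactSpace _)
    have hz0 : Φ = 0 := by
      apply eq_zero_of_coeff
      intro w
      have e : ∀ t, mFourier w t * Φ t = mFourier w t * f (rot t z) - mFourier w t * c0 := by
        intro t
        simp only [hΦ, ContinuousMap.coe_mk]
        ring
      simp_rw [e]
      rw [integral_sub (hint w) (hint2 w), integral_mul_const]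
      by_cases hw : w = 0
      · subst hw
        simp only [mFourier_zero, ContinuousMap.one_apply, one_mul, integral_const]
        have : comp 0 f z = ∫ t, f (rot t z) ∂(τ n) := by
          unfold comp
          simp [mFourier_zero]
        rw [hc0, this]
        simp
      · rw [integral_mFourier hw, zero_mul, sub_zero]
        have h2 := h (-w) (neg_ne_zero.2 hw) z hz
        unfold comp at h2
        rwa [neg_neg] at h2
    intro t
    have h1 : f (rot t z) - c0 = 0 := congrArg (fun F : C(UnitAddTorus (Fin n), ℂ) => F t) hz0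
    have h2 : f (rot 0 z) - c0 = 0 := congrArg (fun F : C(UnitAddTorus (Fin n), ℂ) => F 0) hz0
    rw [rot_zero] at h2
    rw [mFourier_zero]
    simp only [ContinuousMap.one_apply, one_mul]
    linear_combination h1 - h2
  obtain ⟨z₀, hz₀⟩ := hne
  obtain ⟨c, hc'⟩ := uniq hΩ hc hf (g₂ := fun _ => 1) (differentiableOn_const _) hwt
    (by intro z _ t; simp [mFourier_zero]) hz₀ one_ne_zero
  exact ⟨c, fun z hz => by rw [hc' z hz, mul_one]⟩

end Pool.Agent.Y259.RH
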