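import Mathlib
import Pool.Agent.Y259.RH.Defs

set_option autoImplicit false

open MeasureTheory Set Filter Topology ComplexConjugate

namespace Pool.Agent.Y259.RH

section abs

variable {A H : Type*} [NormedAddCommGroup A] [InnerProductSpace ℂ A] [NormedAddCommGroup H]
  [InnerProductSpace ℂ H]

/-- A Hilbert-Schmidt type inequality for an orthonormal family in the target and arbitrary unit
vectors in the source. -/
theorem hs_ineq {ι σ : Type*} (T : A →L[ℂ] H) (b : HilbertBasis ι ℂ A)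
    (hS : Summable fun i => ‖T (b i)‖ ^ 2) (s : Finset σ) (h : σ → H) (hh : Orthonormal ℂ h)
    (e : σ → A) (he : ∀ j ∈ s, ‖e j‖ ≤ 1) :
    ∑ j ∈ s, ‖inner ℂ (h j) (T (e j))‖ ^ 2 ≤ ∑' i, ‖T (b i)‖ ^ 2 := by
  classical
  -- partial sums
  set eF : Finset ι → σ → A := fun F j => ∑ i ∈ F, (b.repr (e j) i) • b i with heF
  have hlim : ∀ j, Tendsto (fun F => eF F j) atTop (𝓝 (e j)) := fun j => b.hasSum_repr (e j)
  have hlim2 : Tendsto (fun F => ∑ j ∈ s, ‖inner ℂ (h j) (T (eF F j))‖ ^ 2) atTop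
      (𝓝 (∑ j ∈ s, ‖inner ℂ (h j) (T (e j))‖ ^ 2)) := by
    apply tendsto_finset_sum
    intro j _
    have h1 : Continuous (fun x : A => ‖inner ℂ (h j) (T x)‖ ^ 2) := by fun_prop
    exact (h1.tendsto (e j)).comp (hlim j)
  apply le_of_tendsto hlim2
  refine Eventually.of_forall (fun F => ?_)
  have hb : ∀ j ∈ s, ‖inner ℂ (h j) (T (eF F j))‖ ^ 2 ≤ ∑ i ∈ F, ‖inner ℂ (h j) (T (b i))‖ ^ 2 := by
    intro j hj
    have h1 : inner ℂ (h j) (T (eF F j)) = ∑ i ∈ F, b.repr (e j) i * inner ℂ (h j) (T (b i)) := by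
      simp only [heF, map_sum, map_smul, inner_sum, inner_smul_right]
    have h2 : ∑ i ∈ F, ‖b.repr (e j) i‖ ^ 2 ≤ 1 := by
      have h3 : ∑ i ∈ F, ‖inner ℂ (b i) (e j)‖ ^ 2 ≤ ‖e j‖ ^ 2 :=
        b.orthonormal.sum_inner_products_le (e j)
      have h4 : ∀ i, b.repr (e j) i = inner ℂ (b i) (e j) := fun i => b.repr_apply_apply (e j) i
      simp_rw [h4]
      refine h3.trans ?_
      have := he j hj
      nlinarith [norm_nonneg (e j)]
    rw [h1]
    calc ‖∑ i ∈ F, b.repr (e j) i * inner ℂ (h j) (T (b i))‖ ^ 2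
        ≤ (∑ i ∈ F, ‖b.repr (e j) i‖ * ‖inner ℂ (h j) (T (b i))‖) ^ 2 := by
          apply pow_le_pow_left₀ (norm_nonneg _)
          refine (norm_sum_le _ _).trans (le_of_eq ?_)
          refine Finset.sum_congr rfl (fun i _ => norm_mul _ _)
      _ ≤ (∑ i ∈ F, ‖b.repr (e j) i‖ ^ 2) * ∑ i ∈ F, ‖inner ℂ (h j) (T (b i))‖ ^ 2 :=
          Finset.sum_mul_sq_le_sq_mul_sq _ _ _
      _ ≤ 1 * ∑ i ∈ F, ‖inner ℂ (h j) (T (b i))‖ ^ 2 :=
          mul_le_mul_of_nonneg_right h2 (Finset.sum_nonneg (fun _ _ => sq_nonneg _))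
      _ = _ := one_mul _
  calc ∑ j ∈ s, ‖inner ℂ (h j) (T (eF F j))‖ ^ 2
      ≤ ∑ j ∈ s, ∑ i ∈ F, ‖inner ℂ (h j) (T (b i))‖ ^ 2 := Finset.sum_le_sum hb
    _ = ∑ i ∈ F, ∑ j ∈ s, ‖inner ℂ (h j) (T (b i))‖ ^ 2 := Finset.sum_comm
    _ ≤ ∑ i ∈ F, ‖T (b i)‖ ^ 2 :=
        Finset.sum_le_sum (fun i _ => hh.sum_inner_products_le (T (b i)))
    _ ≤ ∑' i, ‖T (b i)‖ ^ 2 := hS.sum_le_tsum F (fun _ _ => sq_nonneg _)

/-- The same for an orthogonal family `h` with `⟨h_j, T e_j⟩ = ‖h_j‖²`. -/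
theorem hs_ineq' {ι σ : Type*} (T : A →L[ℂ] H) (b : HilbertBasis ι ℂ A)
    (hS : Summable fun i => ‖T (b i)‖ ^ 2) (s : Finset σ) (h : σ → H)
    (hh : ∀ i ∈ s, ∀ j ∈ s, i ≠ j → inner ℂ (h i) (h j) = 0)
    (e : σ → A) (he : ∀ j ∈ s, ‖e j‖ ≤ 1)
    (hval : ∀ j ∈ s, inner ℂ (h j) (T (e j)) = ((‖h j‖ ^ 2 : ℝ) : ℂ)) :
    ∑ j ∈ s, ‖h j‖ ^ 2 ≤ ∑' i, ‖T (b i)‖ ^ 2 := by
  classical
  set s' := s.filter (fun j => h j ≠ 0) with hs'
  have hsum : ∑ j ∈ s, ‖h j‖ ^ 2 = ∑ j ∈ s', ‖h j‖ ^ 2 := by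
    rw [hs', Finset.sum_filter]
    refine Finset.sum_congr rfl (fun j _ => ?_)
    by_cases h0 : h j = 0
    · simp [h0]
    · simp [h0]
  rw [hsum]
  set k : s' → H := fun j => ((‖h j‖⁻¹ : ℝ) : ℂ) • h j with hk
  have hne : ∀ j : s', h j ≠ 0 := fun j => (Finset.mem_filter.1 j.2).2
  have hmem : ∀ j : s', (j : σ) ∈ s := fun j => (Finset.mem_filter.1 j.2).1
  have hko : Orthonormal ℂ k := by
    constructor
    · intro j
      simp only [hk, norm_smul, Complex.norm_real, norm_inv, norm_norm]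
      exact inv_mul_cancel₀ (norm_ne_zero_iff.2 (hne j))
    · intro i j hij
      simp only [hk, inner_smul_left, inner_smul_right]
      rw [hh i (hmem i) j (hmem j) (fun h' => hij (Subtype.ext h'))]
      simp
  have h1 := hs_ineq T b hS (Finset.univ : Finset s') k hko (fun j => e j)
    (fun j _ => he j (hmem j))
  refine le_trans (le_of_eq ?_) h1
  rw [← Finset.sum_coe_sort s']
  refine Finset.sum_congr rfl (fun j _ => ?_)
  simp only [hk, inner_smul_left]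
  rw [hval j (hmem j), Complex.conj_ofReal, ← Complex.ofReal_mul, Complex.norm_real, Real.norm_eq_abs,
    sq_abs]
  have : ‖h j‖ ≠ 0 := norm_ne_zero_iff.2 (hne j)
  field_simp

end abs

variable {n : ℕ}

/-- pairing of the extended Hankel operator with nice functions orthogonal to the Bergman space -/
theorem pairing {Ω : Set (Fin n → ℂ)} {f : (Fin n → ℂ) → ℂ}
    (hd : (bergman Ω : Set (L2 Ω)) ⊆ closure (hankelDomain Ω f)) (T : bergman Ω →L[ℂ] L2 Ω)
    (hT : ∀ g : bergman Ω, (g : L2 Ω) ∈ hankelDomain Ω f → IsHankelValue Ω f g (T g))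
    (h k : L2 Ω) (hh : h ∈ (bergman Ω)ᗮ)
    (hk : ∀ᵐ z ∂((volume : Measure (Fin n → ℂ)).restrict Ω), k z = f z * h z)
    (e : bergman Ω) : inner ℂ h (T e) = inner ℂ k (e : L2 Ω) := by
  -- on the domain
  have hdom : ∀ g : bergman Ω, (g : L2 Ω) ∈ hankelDomain Ω f →
      inner ℂ h (T g) = inner ℂ k (g : L2 Ω) := by
    intro g hg
    obtain ⟨_, v, hv, hae⟩ := hT g hg
    have h1 : inner ℂ h v = 0 := (Submodule.mem_orthogonal' _ h).1 hh v hv
    have h2 : inner ℂ h (T g) = inner ℂ h (v + T g) := by rw [inner_add_right, h1, zero_add]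
    rw [h2, L2.inner_def, L2.inner_def]
    apply integral_congr_ae
    filter_upwards [hae, hk, Lp.coeFn_add v (T g)] with z h3 h4 h5
    rw [h5, h4, Pi.add_apply, ← h3]
    simp only [RCLike.inner_apply, map_mul]
    ring
  -- density
  obtain ⟨d, hdm, hdt⟩ := mem_closure_iff_seq_limit.1 (hd e.2)
  set d' : ℕ → bergman Ω := fun m => ⟨d m, (hdm m).1⟩ with hd'
  have hlim : Tendsto d' atTop (𝓝 e) := by
    rw [tendsto_subtype_rng]
    exact hdt
  have hc1 : Continuous (fun x : bergman Ω => inner ℂ h (T x)) := by fun_prop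
  have hc2 : Continuous (fun x : bergman Ω => inner ℂ k (x : L2 Ω)) := by fun_prop
  have l1 := (hc1.tendsto e).comp hlim
  have l2 := (hc2.tendsto e).comp hlim
  refine tendsto_nhds_unique l1 (l2.congr (fun m => ?_))
  exact (hdom (d' m) (hdm m)).symm

end Pool.Agent.Y259.RH
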