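import Mathlib
import Pool.Agent.Y259.RH.HS
import Pool.Agent.Y259.RH.Comp2

set_option autoImplicit false

open MeasureTheory Set Filter Topology ComplexConjugate UnitAddTorus Metric
open scoped ENNReal

namespace Pool.Agent.Y259.RH

variable {n : ℕ}

lemma HasWt.mul {K : Set (Fin n → ℂ)} {v w : Fin n → ℤ} {a b : (Fin n → ℂ) → ℂ}
    (ha : HasWt K v a) (hb : HasWt K w b) : HasWt K (v + w) (fun z => a z * b z) := by
  intro z hz t
  simp only
  rw [ha z hz t, hb z hz t, mFourier_add]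
  ring

lemma HasWt.conj {K : Set (Fin n → ℂ)} {w : Fin n → ℤ} {a : (Fin n → ℂ) → ℂ}
    (ha : HasWt K w a) : HasWt K (-w) (fun z => conj (a z)) := by
  intro z hz t
  simp only
  rw [ha z hz t, mFourier_neg, map_mul]

lemma HasWt.const_mul {K : Set (Fin n → ℂ)} {w : Fin n → ℤ} {a : (Fin n → ℂ) → ℂ} (c : ℂ)
    (ha : HasWt K w a) : HasWt K w (fun z => c * a z) := by
  intro z hz t
  simp only
  rw [ha z hz t]
  ring

lemma HasWt.sub {K : Set (Fin n → ℂ)} {w : Fin n → ℤ} {a b : (Fin n → ℂ) → ℂ}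
    (ha : HasWt K w a) (hb : HasWt K w b) : HasWt K w (fun z => a z - b z) := by
  intro z hz t
  simp only
  rw [ha z hz t, hb z hz t]
  ring

lemma HasWt.mono {K L : Set (Fin n → ℂ)} {w : Fin n → ℤ} {a : (Fin n → ℂ) → ℂ}
    (ha : HasWt L w a) (h : K ⊆ L) : HasWt K w a := fun z hz t => ha z (h hz) t

lemma restrict_restrict_sub {Ω K : Set (Fin n → ℂ)} (hKm : MeasurableSet K) (hK : K ⊆ Ω) :
    ((volume : Measure (Fin n → ℂ)).restrict Ω).restrict K = (volume : Measure (Fin n → ℂ)).restrict K := by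
  rw [Measure.restrict_restrict hKm, inter_eq_left.2 hK]

lemma memLp_ind {Ω K : Set (Fin n → ℂ)} (hK : IsCompact K) (hKΩ : K ⊆ Ω) {φ : (Fin n → ℂ) → ℂ}
    (hφ : ContinuousOn φ Ω) :
    MemLp (K.indicator φ) 2 ((volume : Measure (Fin n → ℂ)).restrict Ω) := by
  rw [memLp_indicator_iff_restrict hK.measurableSet, restrict_restrict_sub hK.measurableSet hKΩ]
  have hc := hφ.mono hKΩ
  obtain ⟨M, hM⟩ := hK.exists_bound_of_continuousOn hc
  have : IsFiniteMeasure ((volume : Measure (Fin n → ℂ)).restrict K) :=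
    ⟨by rw [Measure.restrict_apply_univ]; exact hK.measure_lt_top⟩
  apply MemLp.of_bound (hc.aestronglyMeasurable hK.measurableSet) M
  filter_upwards [ae_restrict_mem hK.measurableSet] with z hz using hM z hz

/-- the class of `1_K φ` -/
noncomputable def cls {Ω K : Set (Fin n → ℂ)} (hK : IsCompact K) (hKΩ : K ⊆ Ω) {φ : (Fin n → ℂ) → ℂ}
    (hφ : ContinuousOn φ Ω) : L2 Ω := (memLp_ind hK hKΩ hφ).toLp _

lemma cls_ae {Ω K : Set (Fin n → ℂ)} (hK : IsCompact K) (hKΩ : K ⊆ Ω) {φ : (Fin n → ℂ) → ℂ}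
    (hφ : ContinuousOn φ Ω) :
    ∀ᵐ z ∂((volume : Measure (Fin n → ℂ)).restrict Ω), cls hK hKΩ hφ z = K.indicator φ z :=
  MemLp.coeFn_toLp _

lemma inner_cls {Ω K : Set (Fin n → ℂ)} (hK : IsCompact K) (hKΩ : K ⊆ Ω) {φ : (Fin n → ℂ) → ℂ}
    (hφ : ContinuousOn φ Ω) (w : L2 Ω) {ϕ : (Fin n → ℂ) → ℂ}
    (hw : ∀ᵐ z ∂((volume : Measure (Fin n → ℂ)).restrict K), w z = ϕ z) :
    inner ℂ (cls hK hKΩ hφ) w = ∫ z in K, ϕ z * conj (φ z) := by
  rw [L2.inner_def]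
  have h1 : ∫ z, inner ℂ (cls hK hKΩ hφ z) (w z) ∂((volume : Measure (Fin n → ℂ)).restrict Ω) =
      ∫ z, K.indicator (fun z => w z * conj (φ z)) z ∂((volume : Measure (Fin n → ℂ)).restrict Ω) := by
    apply integral_congr_ae
    filter_upwards [cls_ae hK hKΩ hφ] with z hz
    rw [hz]
    by_cases hzK : z ∈ K
    · simp only [indicator_of_mem hzK, RCLike.inner_apply]
    · simp only [indicator_of_notMem hzK, RCLike.inner_apply, map_zero, mul_zero]
  rw [h1, integral_indicator hK.measurableSet, restrict_restrict_sub hK.measurableSet hKΩ]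
  apply integral_congr_ae
  filter_upwards [hw] with z hz
  rw [hz]

lemma cls_ae_K {Ω K : Set (Fin n → ℂ)} (hK : IsCompact K) (hKΩ : K ⊆ Ω) {φ : (Fin n → ℂ) → ℂ}
    (hφ : ContinuousOn φ Ω) :
    ∀ᵐ z ∂((volume : Measure (Fin n → ℂ)).restrict K), cls hK hKΩ hφ z = φ z := by
  have h1 : ∀ᵐ z ∂((volume : Measure (Fin n → ℂ)).restrict K), cls hK hKΩ hφ z = K.indicator φ z :=
    ae_mono (Measure.restrict_mono hKΩ le_rfl) (cls_ae hK hKΩ hφ)
  filter_upwards [h1, ae_restrict_mem hK.measurableSet] with z h2 h3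
  rw [h2, indicator_of_mem h3]

lemma normsq_cls {Ω K : Set (Fin n → ℂ)} (hK : IsCompact K) (hKΩ : K ⊆ Ω) {φ : (Fin n → ℂ) → ℂ}
    (hφ : ContinuousOn φ Ω) :
    ((‖cls hK hKΩ hφ‖ ^ 2 : ℝ) : ℂ) = ∫ z in K, φ z * conj (φ z) := by
  rw [← inner_cls hK hKΩ hφ (cls hK hKΩ hφ) (cls_ae_K hK hKΩ hφ)]
  rw [inner_self_eq_norm_sq_to_K]
  norm_cast

lemma intK {K Ω : Set (Fin n → ℂ)} (hK : IsCompact K) (hKΩ : K ⊆ Ω) {φ : (Fin n → ℂ) → ℂ}
    (hφ : ContinuousOn φ Ω) : Integrable φ ((volume : Measure (Fin n → ℂ)).restrict K) :=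
  (hφ.mono hKΩ).integrableOn_compact hK

lemma contOn_conj {Ω : Set (Fin n → ℂ)} {φ : (Fin n → ℂ) → ℂ} (hφ : ContinuousOn φ Ω) :
    ContinuousOn (fun z => conj (φ z)) Ω := Complex.continuous_conj.comp_continuousOn hφ

/-- data attached to one weight -/
structure Datum (Ω K : Set (Fin n → ℂ)) (X : (Fin n → ℂ) → ℂ) (α γ : Fin n → ℤ)
    (g G : (Fin n → ℂ) → ℂ) : Prop where
  gd : DifferentiableOn ℂ g Ω
  gw : HasWt Ω γ g
  gL : MemLp g 2 ((volume : Measure (Fin n → ℂ)).restrict Ω)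
  g1 : ∫ z in Ω, ‖g z‖ ^ 2 = 1
  Gd : DifferentiableOn ℂ G Ω
  Gw : HasWt Ω (γ - α) G
  Gu : ∀ φ : (Fin n → ℂ) → ℂ, DifferentiableOn ℂ φ Ω → HasWt Ω (γ - α) φ →
    MemLp φ 2 ((volume : Measure (Fin n → ℂ)).restrict Ω) → ∃ c : ℂ, ∀ z ∈ Ω, φ z = c * G z
  GX : (∀ z ∈ Ω, G z = 0) ∨ ((∀ z ∈ Ω, X z * G z = g z) ∧ ∫ z in K, ‖G z‖ ^ 2 ≠ 0)

lemma conj_mul_self' (x : ℂ) : x * conj x = ((‖x‖ ^ 2 : ℝ) : ℂ) := by
  rw [Complex.mul_conj, Complex.normSq_eq_norm_sq]

theorem key {Ω K : Set (Fin n → ℂ)} (hΩ : IsOpen Ω) (hR : RotInv Ω) (hK : IsCompact K)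
    (hKΩ : K ⊆ Ω) (hKR : RotInv K) {f : (Fin n → ℂ) → ℂ} (hf : DifferentiableOn ℂ f Ω)
    (hd : (bergman Ω : Set (L2 Ω)) ⊆ closure (hankelDomain Ω f)) (T : bergman Ω →L[ℂ] L2 Ω)
    (hT : ∀ g : bergman Ω, (g : L2 Ω) ∈ hankelDomain Ω f → IsHankelValue Ω f g (T g))
    {ι : Type} (b : HilbertBasis ι ℂ (bergman Ω)) (hS : Summable fun i => ‖T (b i)‖ ^ 2)
    (α : Fin n → ℤ) (I : Finset (Fin n → ℤ)) (g G : (Fin n → ℤ) → (Fin n → ℂ) → ℂ)
    (hD : ∀ γ ∈ I, Datum Ω K (comp α f) α γ (g γ) (G γ)) :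
    ∑ γ ∈ I, ((∫ z in K, ‖comp α f z * g γ z‖ ^ 2) -
      (∫ z in K, ‖g γ z‖ ^ 2) ^ 2 / ∫ z in K, ‖G γ z‖ ^ 2) ≤ ∑' i, ‖T (b i)‖ ^ 2 := by
  classical
  set X := comp α f with hX
  have hXd : DifferentiableOn ℂ X Ω := comp_differentiableOn hΩ hR α hf
  have hXw : HasWt Ω α X := comp_wt Ω α f
  have hKm := hK.measurableSet
  set c : (Fin n → ℤ) → ℝ := fun γ => (∫ z in K, ‖g γ z‖ ^ 2) / ∫ z in K, ‖G γ z‖ ^ 2 with hc
  set φ : (Fin n → ℤ) → (Fin n → ℂ) → ℂ := fun γ z => conj (X z) * g γ z - (c γ : ℂ) * G γ z with hφ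
  have hφc : ∀ γ ∈ I, ContinuousOn (φ γ) Ω := by
    intro γ hγ
    have h := hD γ hγ
    exact ((contOn_conj hXd.continuousOn).mul h.gd.continuousOn).sub
      (continuousOn_const.mul h.Gd.continuousOn)
  have hφw : ∀ γ ∈ I, HasWt Ω (γ - α) (φ γ) := by
    intro γ hγ
    have h := hD γ hγ
    have h1 : HasWt Ω (-α + γ) (fun z => conj (X z) * g γ z) := hXw.conj.mul h.gw
    have h2 : -α + γ = γ - α := by abel
    rw [h2] at h1
    exact h1.sub (h.Gw.const_mul _)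
  -- ∫_K G conj φ = 0
  have hGφ : ∀ γ ∈ I, ∫ z in K, G γ z * conj (φ γ z) = 0 := by
    intro γ hγ
    have h := hD γ hγ
    rcases h.GX with h0 | ⟨hXG, hB⟩
    · apply setIntegral_eq_zero_of_forall_eq_zero
      intro z hz
      rw [h0 z (hKΩ hz), zero_mul]
    · have e1 : ∀ z ∈ K, G γ z * conj (φ γ z) =
          ((‖g γ z‖ ^ 2 : ℝ) : ℂ) - (c γ : ℂ) * ((‖G γ z‖ ^ 2 : ℝ) : ℂ) := by
        intro z hz
        simp only [hφ, map_sub, map_mul, Complex.conj_conj, Complex.conj_ofReal]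
        rw [← conj_mul_self', ← conj_mul_self', ← hXG z (hKΩ hz), map_mul]
        ring
      rw [setIntegral_congr_fun hKm e1, integral_sub, integral_const_mul]
      · rw [integral_complex_ofReal, integral_complex_ofReal, ← Complex.ofReal_mul, ← Complex.ofReal_sub]
        simp only [hc]
        rw [div_mul_cancel₀ _ hB, sub_self, Complex.ofReal_zero]
      · apply intK hK hKΩ
        exact Complex.continuous_ofReal.comp_continuousOn (h.gd.continuousOn.norm.pow 2)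
      · apply intK hK hKΩ
        exact continuousOn_const.mul (Complex.continuous_ofReal.comp_continuousOn (h.Gd.continuousOn.norm.pow 2))
  -- the family
  set h : (Fin n → ℤ) → L2 Ω := fun γ => if hγ : γ ∈ I then cls hK hKΩ (hφc γ hγ) else 0 with hh
  have hhγ : ∀ γ (hγ : γ ∈ I), h γ = cls hK hKΩ (hφc γ hγ) := by
    intro γ hγ
    simp only [hh, hγ, dif_pos]
  have horth : ∀ γ ∈ I, h γ ∈ (bergman Ω)ᗮ := by
    intro γ hγ
    have hDγ := hD γ hγ
    rw [Submodule.mem_orthogonal']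
    rintro w ⟨ϕ, hϕd, hϕ⟩
    have hϕK : ∀ᵐ z ∂((volume : Measure (Fin n → ℂ)).restrict K), w z = ϕ z :=
      ae_mono (Measure.restrict_mono hKΩ le_rfl) hϕ
    have hϕL : MemLp ϕ 2 ((volume : Measure (Fin n → ℂ)).restrict Ω) := (Lp.memLp w).ae_eq hϕ
    rw [hhγ γ hγ, inner_cls hK hKΩ (hφc γ hγ) w hϕK]
    have hcc := contOn_conj (hφc γ hγ)
    rw [avg hR hKΩ hKR hKm hϕd.continuousOn ((hcc.mono hKΩ).aestronglyMeasurable hKm)
      (w := γ - α) (((hφw γ hγ).mono hKΩ).conj) (intK hK hKΩ (hϕd.continuousOn.mul hcc))]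
    obtain ⟨c', hc'⟩ := hDγ.Gu (comp (γ - α) ϕ) (comp_differentiableOn hΩ hR _ hϕd) (comp_wt Ω _ _)
      (comp_memLp hΩ hR _ hϕd hϕL)
    have e2 : ∀ z ∈ K, comp (γ - α) ϕ z * conj (φ γ z) = c' * (G γ z * conj (φ γ z)) := by
      intro z hz
      rw [hc' z (hKΩ hz)]
      ring
    rw [setIntegral_congr_fun hKm e2, integral_const_mul, hGφ γ hγ, mul_zero]
  -- pairing of conj X g with φ
  have hXgφ : ∀ γ ∈ I, ∫ z in K, conj (X z) * g γ z * conj (φ γ z) = ∫ z in K, φ γ z * conj (φ γ z) := by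
    intro γ hγ
    have hDγ := hD γ hγ
    have hcc := contOn_conj (hφc γ hγ)
    have e3 : ∀ z ∈ K, conj (X z) * g γ z * conj (φ γ z) =
        φ γ z * conj (φ γ z) + (c γ : ℂ) * (G γ z * conj (φ γ z)) := by
      intro z _
      simp only [hφ]
      ring
    rw [setIntegral_congr_fun hKm e3, integral_add, integral_const_mul, hGφ γ hγ, mul_zero, add_zero]
    · exact intK hK hKΩ ((hφc γ hγ).mul hcc)
    · exact intK hK hKΩ (continuousOn_const.mul (hDγ.Gd.continuousOn.mul hcc))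
  -- the unit vectors
  have hgmem : ∀ γ ∈ I, ∃ e : bergman Ω, ‖e‖ ≤ 1 ∧
      ∀ᵐ z ∂((volume : Measure (Fin n → ℂ)).restrict Ω), (e : L2 Ω) z = g γ z := by
    intro γ hγ
    have hDγ := hD γ hγ
    refine ⟨⟨hDγ.gL.toLp _, ⟨g γ, hDγ.gd, MemLp.coeFn_toLp hDγ.gL⟩⟩, ?_, MemLp.coeFn_toLp hDγ.gL⟩
    have h1 : ‖hDγ.gL.toLp (g γ)‖ ^ 2 = 1 := by
      have h2 : inner ℂ (hDγ.gL.toLp (g γ)) (hDγ.gL.toLp (g γ)) = ((∫ z in Ω, ‖g γ z‖ ^ 2 : ℝ) : ℂ) := by
        rw [L2.inner_def, ← integral_complex_ofReal]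
        apply integral_congr_ae
        filter_upwards [MemLp.coeFn_toLp hDγ.gL] with z hz
        rw [hz, RCLike.inner_apply, conj_mul_self']
      rw [inner_self_eq_norm_sq_to_K, hDγ.g1] at h2
      exact Complex.ofReal_injective (by simpa using h2)
    have h3 : ‖hDγ.gL.toLp (g γ)‖ = 1 := by
      have := norm_nonneg (hDγ.gL.toLp (g γ))
      nlinarith
    exact h3.le
  choose! e he1 hea using hgmem
  have hval : ∀ γ ∈ I, inner ℂ (h γ) (T (e γ)) = ((‖h γ‖ ^ 2 : ℝ) : ℂ) := by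
    intro γ hγ
    have hDγ := hD γ hγ
    have hcf : ContinuousOn (fun z => f z * φ γ z) Ω := hf.continuousOn.mul (hφc γ hγ)
    have hcg := contOn_conj hDγ.gd.continuousOn
    rw [pairing hd T hT (h γ) (cls hK hKΩ hcf) (horth γ hγ) ?_ (e γ)]
    · rw [inner_cls hK hKΩ hcf (e γ : L2 Ω) (ae_mono (Measure.restrict_mono hKΩ le_rfl) (hea γ hγ)),
        hhγ γ hγ, normsq_cls, ← hXgφ γ hγ]
      have e4 : ∀ z, g γ z * conj (f z * φ γ z) = conj (f z * (φ γ z * conj (g γ z))) := by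
        intro z
        simp only [map_mul, Complex.conj_conj]
        ring
      have e5 : ∀ z, conj (X z) * g γ z * conj (φ γ z) = conj (X z * (φ γ z * conj (g γ z))) := by
        intro z
        simp only [map_mul, Complex.conj_conj]
        ring
      simp_rw [e4, e5]
      rw [integral_conj, integral_conj]
      congr 1
      have hw : HasWt K (-α) (fun z => φ γ z * conj (g γ z)) := by
        have h1 := ((hφw γ hγ).mul hDγ.gw.conj).mono hKΩ
        have h2 : γ - α + -γ = -α := by abel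
        rwa [h2] at h1
      exact avg hR hKΩ hKR hKm hf.continuousOn
        ((((hφc γ hγ).mul hcg).mono hKΩ).aestronglyMeasurable hKm) hw
        (intK hK hKΩ (hf.continuousOn.mul ((hφc γ hγ).mul hcg)))
    · rw [hhγ γ hγ]
      filter_upwards [cls_ae hK hKΩ hcf, cls_ae hK hKΩ (hφc γ hγ)] with z h1 h2
      rw [h1, h2]
      by_cases hz : z ∈ K
      · simp only [indicator_of_mem hz]
      · simp only [indicator_of_notMem hz, mul_zero]
  have hort : ∀ γ ∈ I, ∀ γ' ∈ I, γ ≠ γ' → inner ℂ (h γ) (h γ') = 0 := by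
    intro γ hγ γ' hγ' hne
    rw [hhγ γ hγ, hhγ γ' hγ', inner_cls hK hKΩ (hφc γ hγ) _ (cls_ae_K hK hKΩ (hφc γ' hγ'))]
    have h1 := ((hφw γ' hγ').mul (hφw γ hγ).conj).mono hKΩ
    apply integral_eq_zero_of_wt hKR hKm _ h1
    intro h2
    apply hne
    have : γ' - γ = 0 := by
      rw [← h2]; abel
    exact (sub_eq_zero.1 this).symm
  have hmain := hs_ineq' T b hS I h hort e (fun γ hγ => he1 γ hγ) hval
  refine le_trans (le_of_eq ?_) hmain
  refine Finset.sum_congr rfl (fun γ hγ => ?_)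
  have hDγ := hD γ hγ
  have hcc := contOn_conj (hφc γ hγ)
  have hfin : ((‖h γ‖ ^ 2 : ℝ) : ℂ) = (((∫ z in K, ‖X z * g γ z‖ ^ 2) -
      (∫ z in K, ‖g γ z‖ ^ 2) ^ 2 / ∫ z in K, ‖G γ z‖ ^ 2 : ℝ) : ℂ) := by
    rw [hhγ γ hγ, normsq_cls, ← hXgφ γ hγ]
    have e6 : ∀ z ∈ K, conj (X z) * g γ z * conj (φ γ z) =
        ((‖X z * g γ z‖ ^ 2 : ℝ) : ℂ) - (c γ : ℂ) * (conj (X z * G γ z) * g γ z) := by
      intro z _
      simp only [hφ, map_sub, map_mul, Complex.conj_conj, Complex.conj_ofReal]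
      rw [← conj_mul_self', map_mul]
      ring
    rw [setIntegral_congr_fun hKm e6, integral_sub, integral_const_mul, integral_complex_ofReal]
    · push_cast
      congr 1
      rcases hDγ.GX with h0 | ⟨hXG, hB⟩
      · have h1 : ∫ z in K, ‖G γ z‖ ^ 2 = 0 := by
          apply setIntegral_eq_zero_of_forall_eq_zero
          intro z hz
          rw [h0 z (hKΩ hz)]
          simp
        have h2 : c γ = 0 := by simp only [hc, h1, div_zero]
        rw [h2, h1]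
        simp
      · have h1 : ∫ z in K, conj (X z * G γ z) * g γ z = ((∫ z in K, ‖g γ z‖ ^ 2 : ℝ) : ℂ) := by
          rw [← integral_complex_ofReal]
          apply setIntegral_congr_fun hKm
          intro z hz
          simp only
          rw [hXG z (hKΩ hz), mul_comm, conj_mul_self']
        rw [h1]
        simp only [hc]
        push_cast
        ring
    · apply intK hK hKΩ
      exact Complex.continuous_ofReal.comp_continuousOn ((hXd.continuousOn.mul hDγ.gd.continuousOn).norm.pow 2)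
    · apply intK hK hKΩ
      exact continuousOn_const.mul ((contOn_conj (hXd.continuousOn.mul hDγ.Gd.continuousOn)).mul hDγ.gd.continuousOn)
  exact_mod_cast hfin.symm

end Pool.Agent.Y259.RH
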