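import Mathlib
import Pool.Agent.Y259.RH.Key

set_option autoImplicit false

open MeasureTheory Set Filter Topology ComplexConjugate UnitAddTorus Metric
open scoped ENNReal

namespace Pool.Agent.Y259.RH

variable {n : ℕ}

/-- exhaustion of a bounded Reinhardt open set by rotation invariant compact sets -/
theorem exists_exhaustion {Ω : Set (Fin n → ℂ)} (hΩ : IsOpen Ω) (hb : Bornology.IsBounded Ω)
    (hR : RotInv Ω) (hne : (Ωᶜ : Set (Fin n → ℂ)).Nonempty) :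
    ∃ K : ℕ → Set (Fin n → ℂ), (∀ m, IsCompact (K m)) ∧ (∀ m, K m ⊆ Ω) ∧ (∀ m, RotInv (K m)) ∧
      Monotone K ∧ ⋃ m, K m = Ω := by
  have hcl : IsClosed Ωᶜ := hΩ.isClosed_compl
  have hsub : ∀ m : ℕ, {z : Fin n → ℂ | 1 / ((m : ℝ) + 1) ≤ infDist z Ωᶜ} ⊆ Ω := by
    intro m z hz
    by_contra h
    have h1 : infDist z Ωᶜ = 0 := infDist_zero_of_mem h
    simp only [mem_setOf_eq, h1] at hz
    have : (0 : ℝ) < 1 / ((m : ℝ) + 1) := by positivity
    linarith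
  refine ⟨fun m => {z | 1 / ((m : ℝ) + 1) ≤ infDist z Ωᶜ}, fun m => ?_, hsub, fun m => ?_, ?_, ?_⟩
  · apply Metric.isCompact_of_isClosed_isBounded
    · exact isClosed_le continuous_const (continuous_infDist_pt _)
    · exact hb.subset (hsub m)
  · intro t z hz
    simp only [mem_setOf_eq] at hz ⊢
    have himg : rotL t '' Ωᶜ = Ωᶜ := by
      ext w
      constructor
      · rintro ⟨v, hv, rfl⟩
        intro h
        apply hv
        rw [rotL_apply] at h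
        exact (hR.mem_iff t v).1 h
      · intro hw
        refine ⟨rot (-t) w, ?_, ?_⟩
        · intro h
          exact hw ((hR.mem_iff (-t) w).1 h)
        · rw [rotL_apply, ← rot_add, add_neg_cancel, rot_zero]
    have h1 := Metric.infDist_image (rotL t).isometry (t := Ωᶜ) (x := z)
    rw [himg, rotL_apply] at h1
    rw [h1]
    exact hz
  · intro m m' hmm z hz
    simp only [mem_setOf_eq] at hz ⊢
    refine le_trans ?_ hz
    apply one_div_le_one_div_of_le (by positivity)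
    have : (m : ℝ) ≤ m' := by exact_mod_cast hmm
    linarith
  · apply Subset.antisymm
    · exact iUnion_subset hsub
    · intro z hz
      have h1 : 0 < infDist z Ωᶜ := (hcl.notMem_iff_infDist_pos hne).1 (fun h => h hz)
      obtain ⟨m, hm⟩ := exists_nat_one_div_lt h1
      exact mem_iUnion.2 ⟨m, hm.le⟩

lemma rotInv_univ_compl_nonempty {Ω : Set (Fin n → ℂ)} (hn : 0 < n) (hb : Bornology.IsBounded Ω) :
    (Ωᶜ : Set (Fin n → ℂ)).Nonempty := by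
  rw [nonempty_compl]
  rintro rfl
  haveI : Nonempty (Fin n) := ⟨⟨0, hn⟩⟩
  haveI : Nontrivial (Fin n → ℂ) := inferInstance
  exact NormedSpace.unbounded_univ ℂ (Fin n → ℂ) hb

/-- positivity of the L² norm -/
lemma sq_pos {Ω U : Set (Fin n → ℂ)} (hU : IsOpen U) (hUΩ : U ⊆ Ω) {g : (Fin n → ℂ) → ℂ}
    (hg : ContinuousOn g Ω) (hi : IntegrableOn (fun z => ‖g z‖ ^ 2) Ω) {z₀ : Fin n → ℂ} (hz₀ : z₀ ∈ U)
    (h0 : g z₀ ≠ 0) : 0 < ∫ z in U, ‖g z‖ ^ 2 := by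
  rw [setIntegral_pos_iff_support_of_nonneg_ae]
  · have h1 : IsOpen (U ∩ g ⁻¹' {0}ᶜ) := (hg.mono hUΩ).isOpen_inter_preimage hU isOpen_compl_singleton
    have h2 : 0 < volume (U ∩ g ⁻¹' {0}ᶜ) := h1.measure_pos _ ⟨z₀, hz₀, h0⟩
    refine lt_of_lt_of_le h2 (measure_mono ?_)
    rintro z ⟨hz, hz2⟩
    refine ⟨?_, hz⟩
    simp only [Function.mem_support, ne_eq, pow_eq_zero_iff, OfNat.ofNat_ne_zero, not_false_eq_true,
      norm_eq_zero]
    exact hz2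
  · exact Eventually.of_forall (fun z => by simp only [Pi.zero_apply]; positivity)
  · exact hi.mono_set hUΩ

/-- weights with a nonzero square integrable holomorphic function -/
def Good (Ω : Set (Fin n → ℂ)) (γ : Fin n → ℤ) : Prop :=
  ∃ g : (Fin n → ℂ) → ℂ, DifferentiableOn ℂ g Ω ∧ HasWt Ω γ g ∧
    MemLp g 2 ((volume : Measure (Fin n → ℂ)).restrict Ω) ∧ ∫ z in Ω, ‖g z‖ ^ 2 = 1

lemma good_of {Ω : Set (Fin n → ℂ)} (hΩ : IsOpen Ω) {γ : Fin n → ℤ} {g : (Fin n → ℂ) → ℂ}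
    (hg : DifferentiableOn ℂ g Ω) (hw : HasWt Ω γ g)
    (hL : MemLp g 2 ((volume : Measure (Fin n → ℂ)).restrict Ω)) {z₀ : Fin n → ℂ} (hz₀ : z₀ ∈ Ω)
    (h0 : g z₀ ≠ 0) : Good Ω γ := by
  have hi : IntegrableOn (fun z => ‖g z‖ ^ 2) Ω :=
    (memLp_two_iff_integrable_sq_norm hL.aestronglyMeasurable).1 hL
  have hp := sq_pos hΩ Subset.rfl hg.continuousOn hi hz₀ h0
  set I := ∫ z in Ω, ‖g z‖ ^ 2 with hI
  refine ⟨fun z => ((Real.sqrt I)⁻¹ : ℂ) * g z, hg.const_mul _, hw.const_mul _, hL.const_mul _, ?_⟩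
  have h1 : ∀ z, ‖((Real.sqrt I)⁻¹ : ℂ) * g z‖ ^ 2 = I⁻¹ * ‖g z‖ ^ 2 := by
    intro z
    rw [norm_mul, norm_inv, Complex.norm_real, Real.norm_eq_abs, abs_of_nonneg (Real.sqrt_nonneg _),
      mul_pow, inv_pow, Real.sq_sqrt hp.le]
  simp_rw [h1]
  rw [integral_const_mul, ← hI]
  exact inv_mul_cancel₀ hp.ne'

/-- a nonzero value of a product -/
lemma mul_ne {Ω : Set (Fin n → ℂ)} (hΩ : IsOpen Ω) (hc : IsPreconnected Ω)
    {a b : (Fin n → ℂ) → ℂ} (ha : DifferentiableOn ℂ a Ω) (hb : DifferentiableOn ℂ b Ω)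
    {z₁ z₂ : Fin n → ℂ} (h₁ : z₁ ∈ Ω) (h₂ : z₂ ∈ Ω) (ha1 : a z₁ ≠ 0) (hb2 : b z₂ ≠ 0) :
    ∃ z ∈ Ω, a z * b z ≠ 0 := by
  by_contra hcon
  push Not at hcon
  apply hb2
  apply ident hΩ hc hb h₁ _ z₂ h₂
  have h3 : ∀ᶠ z in 𝓝 z₁, a z ≠ 0 := (ha.continuousOn.continuousAt (hΩ.mem_nhds h₁)).eventually_ne ha1
  filter_upwards [h3, hΩ.mem_nhds h₁] with z hz hzΩ
  exact (mul_eq_zero.1 (hcon z hzΩ)).resolve_left hz

end Pool.Agent.Y259.RH
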