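import Mathlib
import Pool.Agent.Y259.RH.Limit

set_option autoImplicit false

open MeasureTheory Set Filter Topology ComplexConjugate UnitAddTorus Metric
open scoped ENNReal

namespace Pool.Agent.Y259.RH

variable {n : ℕ}

open Classical in
/-- a normalised function of weight `γ` -/
noncomputable def gg (Ω : Set (Fin n → ℂ)) (γ : Fin n → ℤ) : (Fin n → ℂ) → ℂ :=
  if h : Good Ω γ then h.choose else 0

lemma gg_spec {Ω : Set (Fin n → ℂ)} {γ : Fin n → ℤ} (h : Good Ω γ) :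
    DifferentiableOn ℂ (gg Ω γ) Ω ∧ HasWt Ω γ (gg Ω γ) ∧
    MemLp (gg Ω γ) 2 ((volume : Measure (Fin n → ℂ)).restrict Ω) ∧ ∫ z in Ω, ‖gg Ω γ z‖ ^ 2 = 1 := by
  have h1 : gg Ω γ = h.choose := by
    unfold gg
    rw [dif_pos h]
  rw [h1]
  exact h.choose_spec

lemma gg_zero {Ω : Set (Fin n → ℂ)} {γ : Fin n → ℤ} (h : ¬ Good Ω γ) : gg Ω γ = 0 := by
  unfold gg
  rw [dif_neg h]

/-- `ρ(γ) = ‖X g_γ‖²` -/
noncomputable def rho (Ω : Set (Fin n → ℂ)) (X : (Fin n → ℂ) → ℂ) (γ : Fin n → ℤ) : ℝ :=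
  ∫ z in Ω, ‖X z * gg Ω γ z‖ ^ 2

lemma rho_zero {Ω : Set (Fin n → ℂ)} {X : (Fin n → ℂ) → ℂ} {γ : Fin n → ℤ} (h : ¬ Good Ω γ) :
    rho Ω X γ = 0 := by
  unfold rho
  rw [gg_zero h]
  simp

lemma gg_ne {Ω : Set (Fin n → ℂ)} {γ : Fin n → ℤ} (_hm : MeasurableSet Ω) (h : Good Ω γ) :
    ∃ z ∈ Ω, gg Ω γ z ≠ 0 := by
  by_contra hcon
  push Not at hcon
  have h1 : ∫ z in Ω, ‖gg Ω γ z‖ ^ 2 = 0 := by
    apply setIntegral_eq_zero_of_forall_eq_zero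
    intro z hz
    rw [hcon z hz]
    simp
  rw [(gg_spec h).2.2.2] at h1
  exact one_ne_zero h1

/-- the data of the argument -/
structure Setup (Ω : Set (Fin n → ℂ)) (X : (Fin n → ℂ) → ℂ) (α : Fin n → ℤ) (S : ℝ) : Prop where
  hΩ : IsOpen Ω
  hc : IsPreconnected Ω
  hR : RotInv Ω
  hb : Bornology.IsBounded Ω
  hn : 0 < n
  Xd : DifferentiableOn ℂ X Ω
  Xw : HasWt Ω α X
  Xne : ∃ z ∈ Ω, X z ≠ 0
  hkey : ∀ (K : Set (Fin n → ℂ)), IsCompact K → K ⊆ Ω → RotInv K →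
    ∀ (I : Finset (Fin n → ℤ)) (g G : (Fin n → ℤ) → (Fin n → ℂ) → ℂ),
    (∀ γ ∈ I, Datum Ω K X α γ (g γ) (G γ)) →
    ∑ γ ∈ I, ((∫ z in K, ‖X z * g γ z‖ ^ 2) -
      (∫ z in K, ‖g γ z‖ ^ 2) ^ 2 / ∫ z in K, ‖G γ z‖ ^ 2) ≤ S

namespace Setup

variable {Ω : Set (Fin n → ℂ)} {X : (Fin n → ℂ) → ℂ} {α : Fin n → ℤ} {S : ℝ}

lemma prop (s : Setup Ω X α S) {γ : Fin n → ℤ} (h : Good Ω γ) {φ : (Fin n → ℂ) → ℂ}
    (hφ : DifferentiableOn ℂ φ Ω) (hw : HasWt Ω γ φ) : ∃ c : ℂ, ∀ z ∈ Ω, φ z = c * gg Ω γ z := by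
  obtain ⟨z₀, hz₀, h0⟩ := gg_ne s.hΩ.measurableSet h
  exact uniq s.hΩ s.hc hφ (gg_spec h).1 hw (gg_spec h).2.1 hz₀ h0

/-- the function `G` attached to a good weight -/
lemma exists_G (s : Setup Ω X α S) {K : ℕ → Set (Fin n → ℂ)} (hK : ∀ m, IsCompact (K m))
    (hKΩ : ∀ m, K m ⊆ Ω) (hmono : Monotone K) (hU : ⋃ m, K m = Ω) {γ : Fin n → ℤ}
    (h : Good Ω γ) : ∃ G : (Fin n → ℂ) → ℂ, (∀ᶠ m in atTop, Datum Ω (K m) X α γ (gg Ω γ) G) ∧
      Tendsto (fun m => (∫ z in K m, ‖gg Ω γ z‖ ^ 2) ^ 2 / ∫ z in K m, ‖G z‖ ^ 2) atTop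
        (𝓝 (rho Ω X (γ - α))) := by
  obtain ⟨hgd, hgw, hgL, hg1⟩ := gg_spec h
  have hlim : ∀ φ : (Fin n → ℂ) → ℂ, MemLp φ 2 ((volume : Measure (Fin n → ℂ)).restrict Ω) →
      Tendsto (fun m => ∫ z in K m, ‖φ z‖ ^ 2) atTop (𝓝 (∫ z in Ω, ‖φ z‖ ^ 2)) := by
    intro φ hφ
    have h1 := (memLp_two_iff_integrable_sq_norm hφ.aestronglyMeasurable).1 hφ
    have h2 := tendsto_setIntegral_of_monotone (μ := (volume : Measure (Fin n → ℂ)))
      (f := fun z => ‖φ z‖ ^ 2) (fun m => (hK m).measurableSet) hmono (by rw [hU]; exact h1)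
    rwa [hU] at h2
  by_cases hG : Good Ω (γ - α)
  · obtain ⟨hd, hw, hL, h1⟩ := gg_spec hG
    have hXg : HasWt Ω γ (fun z => X z * gg Ω (γ - α) z) := by
      have := s.Xw.mul hw
      rwa [add_sub_cancel] at this
    obtain ⟨c, hc'⟩ := s.prop h (s.Xd.mul hd) hXg
    have hc : ∀ z ∈ Ω, X z * gg Ω (γ - α) z = c * gg Ω γ z := hc'
    obtain ⟨z₁, hz₁, hX1⟩ := s.Xne
    obtain ⟨z₂, hz₂, hg2⟩ := gg_ne s.hΩ.measurableSet hG
    obtain ⟨z, hz, hne⟩ := mul_ne s.hΩ s.hc s.Xd hd hz₁ hz₂ hX1 hg2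
    have hc0 : c ≠ 0 := by
      rintro rfl
      apply hne
      have := hc z hz
      simpa using this
    have hcn : 0 < ‖c‖ ^ 2 := by positivity
    have hrho : rho Ω X (γ - α) = ‖c‖ ^ 2 := by
      unfold rho
      have : ∀ z ∈ Ω, ‖X z * gg Ω (γ - α) z‖ ^ 2 = ‖c‖ ^ 2 * ‖gg Ω γ z‖ ^ 2 := by
        intro z hz
        have := hc z hz
        rw [this, norm_mul, mul_pow]
      rw [setIntegral_congr_fun s.hΩ.measurableSet this, integral_const_mul, hg1, mul_one]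
    set G : (Fin n → ℂ) → ℂ := fun z => c⁻¹ * gg Ω (γ - α) z with hGdef
    have hGL : MemLp G 2 ((volume : Measure (Fin n → ℂ)).restrict Ω) := hL.const_mul _
    have hG1 : ∫ z in Ω, ‖G z‖ ^ 2 = (‖c‖ ^ 2)⁻¹ := by
      simp only [hGdef, norm_mul, mul_pow]
      rw [integral_const_mul, h1, mul_one, norm_inv, inv_pow]
    have hGlim := hlim G hGL
    rw [hG1] at hGlim
    refine ⟨G, ?_, ?_⟩
    · have hev : ∀ᶠ m in atTop, ∫ z in K m, ‖G z‖ ^ 2 ≠ 0 := by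
        apply hGlim.eventually_ne
        positivity
      filter_upwards [hev] with m hm
      refine ⟨hgd, hgw, hgL, hg1, hd.const_mul _, hw.const_mul _, ?_, Or.inr ⟨?_, hm⟩⟩
      · intro φ hφ hφw _
        obtain ⟨c', hc'⟩ := s.prop hG hφ hφw
        refine ⟨c' * c, fun z hz => ?_⟩
        rw [hc' z hz]
        simp only [hGdef]
        field_simp
      · intro z hz
        have := hc z hz
        simp only [hGdef]
        rw [mul_left_comm, this, ← mul_assoc, inv_mul_cancel₀ hc0, one_mul]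
    · have h3 := ((hlim _ hgL).pow 2).div hGlim (by positivity)
      rw [hg1, hrho.symm, one_pow, one_div, inv_inv] at h3
      exact h3
  · refine ⟨0, Eventually.of_forall (fun m => ?_), ?_⟩
    · refine ⟨hgd, hgw, hgL, hg1, differentiableOn_const 0, ?_, ?_, Or.inl (fun z _ => rfl)⟩
      · intro z _ t
        simp
      · intro φ hφ hφw hφL
        refine ⟨0, fun z hz => ?_⟩
        rw [zero_mul]
        by_contra h0
        exact hG (good_of s.hΩ hφ hφw hφL hz h0)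
    · rw [rho_zero hG]
      simp

lemma exhaustion (s : Setup Ω X α S) : ∃ K : ℕ → Set (Fin n → ℂ), (∀ m, IsCompact (K m)) ∧
    (∀ m, K m ⊆ Ω) ∧ (∀ m, RotInv (K m)) ∧ Monotone K ∧ ⋃ m, K m = Ω :=
  exists_exhaustion s.hΩ s.hb s.hR (rotInv_univ_compl_nonempty s.hn s.hb)

lemma memXg (s : Setup Ω X α S) {γ : Fin n → ℤ} (h : Good Ω γ) :
    MemLp (fun z => X z * gg Ω γ z) 2 ((volume : Measure (Fin n → ℂ)).restrict Ω) := by
  obtain ⟨K, hK, hKΩ, hKR, hmono, hU⟩ := s.exhaustion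
  obtain ⟨G, hG, hlim⟩ := s.exists_G hK hKΩ hmono hU h
  obtain ⟨hgd, hgw, hgL, hg1⟩ := gg_spec h
  have hcont : ContinuousOn (fun z => X z * gg Ω γ z) Ω := s.Xd.continuousOn.mul hgd.continuousOn
  rw [memLp_two_iff_integrable_sq_norm (hcont.aestronglyMeasurable s.hΩ.measurableSet)]
  have hcov : AECover ((volume : Measure (Fin n → ℂ)).restrict Ω) atTop K := by
    refine ⟨?_, fun m => (hK m).measurableSet⟩
    filter_upwards [ae_restrict_mem s.hΩ.measurableSet] with z hz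
    rw [← hU] at hz
    obtain ⟨m, hm⟩ := mem_iUnion.1 hz
    filter_upwards [eventually_ge_atTop m] with m' hm'
    exact hmono hm' hm
  refine hcov.integrable_of_integral_bounded_of_nonneg_ae (S + (rho Ω X (γ - α) + 1)) ?_ ?_ ?_
  · intro m
    have : IntegrableOn (fun z => ‖X z * gg Ω γ z‖ ^ 2) (K m) :=
      ((hcont.norm.pow 2).mono (hKΩ m)).integrableOn_compact (hK m)
    exact this.mono_measure Measure.restrict_le_self
  · exact Eventually.of_forall (fun z => by positivity)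
  · have hev : ∀ᶠ m in atTop, (∫ z in K m, ‖gg Ω γ z‖ ^ 2) ^ 2 / (∫ z in K m, ‖G z‖ ^ 2) <
        rho Ω X (γ - α) + 1 := hlim.eventually_lt_const (by linarith)
    filter_upwards [hev, hG] with m h1 h2
    have h3 := s.hkey (K m) (hK m) (hKΩ m) (hKR m) {γ} (fun _ => gg Ω γ) (fun _ => G)
      (by
        intro γ' hγ'
        rw [Finset.mem_singleton.1 hγ']
        exact h2)
    rw [Finset.sum_singleton] at h3
    rw [restrict_restrict_sub (hK m).measurableSet (hKΩ m)]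
    linarith

/-- the inequality in the limit -/
theorem ineq (s : Setup Ω X α S) (I : Finset (Fin n → ℤ)) (hI : ∀ γ ∈ I, Good Ω γ) :
    ∑ γ ∈ I, (rho Ω X γ - rho Ω X (γ - α)) ≤ S := by
  obtain ⟨K, hK, hKΩ, hKR, hmono, hU⟩ := s.exhaustion
  have hex : ∀ γ ∈ I, ∃ G : (Fin n → ℂ) → ℂ, (∀ᶠ m in atTop, Datum Ω (K m) X α γ (gg Ω γ) G) ∧
      Tendsto (fun m => (∫ z in K m, ‖gg Ω γ z‖ ^ 2) ^ 2 / ∫ z in K m, ‖G z‖ ^ 2) atTop
        (𝓝 (rho Ω X (γ - α))) := fun γ hγ => s.exists_G hK hKΩ hmono hU (hI γ hγ)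
  choose! G hG hlim using hex
  have hev : ∀ᶠ m in atTop, ∀ γ ∈ I, Datum Ω (K m) X α γ (gg Ω γ) (G γ) := by
    rw [Filter.eventually_all_finset]
    exact hG
  have hev2 : ∀ᶠ m in atTop, ∑ γ ∈ I, ((∫ z in K m, ‖X z * gg Ω γ z‖ ^ 2) -
      (∫ z in K m, ‖gg Ω γ z‖ ^ 2) ^ 2 / ∫ z in K m, ‖G γ z‖ ^ 2) ≤ S := by
    filter_upwards [hev] with m hm
    exact s.hkey (K m) (hK m) (hKΩ m) (hKR m) I (fun γ => gg Ω γ) G hm
  refine le_of_tendsto ?_ hev2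
  apply tendsto_finsetSum
  intro γ hγ
  refine Tendsto.sub ?_ (hlim γ hγ)
  have h1 := (memLp_two_iff_integrable_sq_norm (s.memXg (hI γ hγ)).aestronglyMeasurable).1
    (s.memXg (hI γ hγ))
  have h2 := tendsto_setIntegral_of_monotone (μ := (volume : Measure (Fin n → ℂ)))
    (f := fun z => ‖X z * gg Ω γ z‖ ^ 2) (fun m => (hK m).measurableSet) hmono (by rw [hU]; exact h1)
  rwa [hU] at h2

/-- going up -/
lemma good_add (s : Setup Ω X α S) {γ : Fin n → ℤ} (h : Good Ω γ) : Good Ω (γ + α) := by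
  obtain ⟨z₁, hz₁, hX1⟩ := s.Xne
  obtain ⟨z₂, hz₂, hg2⟩ := gg_ne s.hΩ.measurableSet h
  obtain ⟨hd, hw, hL, h1⟩ := gg_spec h
  obtain ⟨z, hz, hne⟩ := mul_ne s.hΩ s.hc s.Xd hd hz₁ hz₂ hX1 hg2
  have hw' := s.Xw.mul hw
  rw [add_comm] at hw'
  exact good_of s.hΩ (s.Xd.mul hd) hw' (s.memXg h) hz hne

/-- the step lemma -/
lemma step (s : Setup Ω X α S) {γ : Fin n → ℤ} (h : Good Ω γ) {φ : (Fin n → ℂ) → ℂ}
    (hφ : DifferentiableOn ℂ φ Ω) (hw : HasWt Ω γ φ) :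
    MemLp (fun z => X z * φ z) 2 ((volume : Measure (Fin n → ℂ)).restrict Ω) ∧
    ∫ z in Ω, ‖X z * φ z‖ ^ 2 = rho Ω X γ * ∫ z in Ω, ‖φ z‖ ^ 2 := by
  obtain ⟨c, hc⟩ := s.prop h hφ hw
  obtain ⟨hd, hw', hL, h1⟩ := gg_spec h
  constructor
  · refine ((s.memXg h).const_mul c).ae_eq ?_
    filter_upwards [ae_restrict_mem s.hΩ.measurableSet] with z hz
    rw [hc z hz]
    ring
  · have e1 : ∀ z ∈ Ω, ‖X z * φ z‖ ^ 2 = ‖c‖ ^ 2 * ‖X z * gg Ω γ z‖ ^ 2 := by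
      intro z hz
      rw [hc z hz, mul_left_comm, norm_mul c, mul_pow]
    have e2 : ∀ z ∈ Ω, ‖φ z‖ ^ 2 = ‖c‖ ^ 2 * ‖gg Ω γ z‖ ^ 2 := by
      intro z hz
      rw [hc z hz, norm_mul c, mul_pow]
    rw [setIntegral_congr_fun s.hΩ.measurableSet e1, setIntegral_congr_fun s.hΩ.measurableSet e2,
      integral_const_mul, integral_const_mul, h1]
    unfold rho
    ring

end Setup

end Pool.Agent.Y259.RH
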