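import Mathlib
import Pool.Agent.Y259.RH.Limit2

set_option autoImplicit false

open MeasureTheory Set Filter Topology ComplexConjugate UnitAddTorus Metric
open scoped ENNReal

namespace Pool.Agent.Y259.RH

variable {n : ℕ}

namespace Setup

variable {Ω : Set (Fin n → ℂ)} {X : (Fin n → ℂ) → ℂ} {α : Fin n → ℤ} {S : ℝ}

lemma ne_on (s : Setup Ω X α S) {γ : Fin n → ℤ} (h : Good Ω γ) {U : Set (Fin n → ℂ)} (hU : IsOpen U)
    (hUΩ : U ⊆ Ω) (hne : U.Nonempty) : ∃ z ∈ U, gg Ω γ z ≠ 0 := by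
  by_contra hcon
  push Not at hcon
  obtain ⟨z₀, hz₀⟩ := hne
  obtain ⟨z, hz, hz'⟩ := gg_ne s.hΩ.measurableSet h
  apply hz'
  apply ident s.hΩ s.hc (gg_spec h).1 (hUΩ hz₀) _ z hz
  filter_upwards [hU.mem_nhds hz₀] with w hw using hcon w hw

lemma good_add_nat (s : Setup Ω X α S) {γ : Fin n → ℤ} (h : Good Ω γ) (k : ℕ) :
    Good Ω (γ + (k : ℤ) • α) := by
  induction k with
  | zero => simpa using h
  | succ k ih =>
    have := s.good_add ih
    have e : γ + (k : ℤ) • α + α = γ + ((k + 1 : ℕ) : ℤ) • α := by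
      push_cast
      rw [add_smul, one_smul, add_assoc]
    rwa [e] at this

lemma pow_wt (s : Setup Ω X α S) {γ : Fin n → ℤ} {g : (Fin n → ℂ) → ℂ} (hg : HasWt Ω γ g) (k : ℕ) :
    HasWt Ω (γ + (k : ℤ) • α) (fun z => X z ^ k * g z) := by
  induction k with
  | zero => simpa using hg
  | succ k ih =>
    have h1 := s.Xw.mul ih
    have e : α + (γ + (k : ℤ) • α) = γ + ((k + 1 : ℕ) : ℤ) • α := by
      push_cast
      rw [add_smul, one_smul]
      abel
    rw [e] at h1
    intro z hz t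
    have := h1 z hz t
    simp only at this ⊢
    rw [pow_succ, pow_succ]
    linear_combination this

lemma diff_pow (s : Setup Ω X α S) {g : (Fin n → ℂ) → ℂ} (hg : DifferentiableOn ℂ g Ω) (k : ℕ) :
    DifferentiableOn ℂ (fun z => X z ^ k * g z) Ω := (s.Xd.pow k).mul hg

lemma claimU (s : Setup Ω X α S) {γ : Fin n → ℤ} (h : Good Ω γ) {b b' : ℝ} (hb : 0 < b) (hbb : b < b')
    {z₂ : Fin n → ℂ} (hz₂ : z₂ ∈ Ω) (hX : b' < ‖X z₂‖ ^ 2) :
    ∃ k : ℕ, b ≤ rho Ω X (γ + (k : ℤ) • α) := by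
  by_contra hcon
  push Not at hcon
  obtain ⟨hd, hw, hL, h1⟩ := gg_spec h
  set g := gg Ω γ with hg
  have hM : ∀ k : ℕ, MemLp (fun z => X z ^ k * g z) 2 ((volume : Measure (Fin n → ℂ)).restrict Ω) ∧
      ∫ z in Ω, ‖X z ^ k * g z‖ ^ 2 ≤ b ^ k := by
    intro k
    induction k with
    | zero => simpa using ⟨hL, h1.le⟩
    | succ k ih =>
      obtain ⟨h2, h3⟩ := s.step (s.good_add_nat h k) (s.diff_pow hd k) (s.pow_wt hw k)
      have e : ∀ z, X z * (X z ^ k * g z) = X z ^ (k + 1) * g z := by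
        intro z
        rw [pow_succ]
        ring
      simp_rw [e] at h2 h3
      refine ⟨h2, ?_⟩
      rw [h3, pow_succ, mul_comm]
      apply mul_le_mul ih.2 (hcon k).le
      · unfold rho
        positivity
      · positivity
  set U : Set (Fin n → ℂ) := {z ∈ Ω | b' < ‖X z‖ ^ 2} with hU
  have hUo : IsOpen U := by
    have := (s.Xd.continuousOn.norm.pow 2).isOpen_inter_preimage s.hΩ (isOpen_Ioi (a := b'))
    exact this
  have hUΩ : U ⊆ Ω := fun z hz => hz.1
  obtain ⟨z, hz, hz'⟩ := s.ne_on h hUo hUΩ ⟨z₂, hz₂, hX⟩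
  have hδ := sq_pos hUo hUΩ hd.continuousOn
    ((memLp_two_iff_integrable_sq_norm hL.aestronglyMeasurable).1 hL) hz hz'
  set δ := ∫ z in U, ‖g z‖ ^ 2 with hδdef
  have hbound : ∀ k : ℕ, b' ^ k * δ ≤ b ^ k := by
    intro k
    have hi := (memLp_two_iff_integrable_sq_norm (hM k).1.aestronglyMeasurable).1 (hM k).1
    calc b' ^ k * δ = ∫ z in U, b' ^ k * ‖g z‖ ^ 2 := by rw [integral_const_mul]
      _ ≤ ∫ z in U, ‖X z ^ k * g z‖ ^ 2 := by
          apply setIntegral_mono_on
          · exact (((memLp_two_iff_integrable_sq_norm hL.aestronglyMeasurable).1 hL).mono_measure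
              (Measure.restrict_mono hUΩ le_rfl)).const_mul _
          · exact hi.mono_measure (Measure.restrict_mono hUΩ le_rfl)
          · exact hUo.measurableSet
          · intro z hz
            rw [norm_mul, mul_pow, norm_pow, ← pow_mul, mul_comm k 2, pow_mul]
            apply mul_le_mul_of_nonneg_right _ (by positivity)
            apply pow_le_pow_left₀ (by linarith) hz.2.le
      _ ≤ ∫ z in Ω, ‖X z ^ k * g z‖ ^ 2 := by
          apply setIntegral_mono_set hi
          · exact Eventually.of_forall (fun z => by simp only [Pi.zero_apply]; positivity)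
          · exact Eventually.of_forall hUΩ
      _ ≤ b ^ k := (hM k).2
  have hb' : 0 < b' := hb.trans hbb
  obtain ⟨k, hk⟩ := exists_pow_lt_of_lt_one hδ ((div_lt_one hb').2 hbb)
  rw [div_pow, div_lt_iff₀ (pow_pos hb' k)] at hk
  have := hbound k
  linarith [mul_comm δ (b' ^ k)]

lemma claimL (s : Setup Ω X α S) {γ : Fin n → ℤ} (h : Good Ω γ) {a a' : ℝ} (ha' : 0 < a')
    (haa : a' < a) {z₁ : Fin n → ℂ} (hz₁ : z₁ ∈ Ω) (hX : ‖X z₁‖ ^ 2 < a') :
    ∃ J : ℕ, (∀ j : ℕ, j < J → Good Ω (γ - (j : ℤ) • α)) ∧ rho Ω X (γ - (J : ℤ) • α) ≤ a := by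
  by_contra hcon
  push Not at hcon
  have ha : 0 < a := ha'.trans haa
  have hgood : ∀ J : ℕ, Good Ω (γ - (J : ℤ) • α) := by
    intro J
    induction J using Nat.strong_induction_on with
    | _ J ih =>
      by_contra hng
      have := hcon J ih
      rw [rho_zero hng] at this
      linarith
  have hrho : ∀ J : ℕ, a < rho Ω X (γ - (J : ℤ) • α) := fun J => hcon J (fun j _ => hgood j)
  obtain ⟨hd, hw, hL, h1⟩ := gg_spec h
  set g := gg Ω γ with hg
  set V : Set (Fin n → ℂ) := {z ∈ Ω | ‖X z‖ ^ 2 < a'} with hV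
  have hVo : IsOpen V := by
    have := (s.Xd.continuousOn.norm.pow 2).isOpen_inter_preimage s.hΩ (isOpen_Iio (a := a'))
    exact this
  have hVΩ : V ⊆ Ω := fun z hz => hz.1
  obtain ⟨z, hz, hz'⟩ := s.ne_on h hVo hVΩ ⟨z₁, hz₁, hX⟩
  have hgi := (memLp_two_iff_integrable_sq_norm hL.aestronglyMeasurable).1 hL
  have hδ := sq_pos hVo hVΩ hd.continuousOn hgi hz hz'
  set δ := ∫ z in V, ‖g z‖ ^ 2 with hδdef
  have hbound : ∀ J : ℕ, a ^ J * δ ≤ a' ^ J := by
    intro J
    obtain ⟨hd', hw', hL', h1'⟩ := gg_spec (hgood J)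
    set h' := gg Ω (γ - (J : ℤ) • α) with hh'
    have hwt : ∀ i : ℕ, i ≤ J → γ - (J : ℤ) • α + (i : ℤ) • α = γ - ((J - i : ℕ) : ℤ) • α := by
      intro i hi
      rw [Nat.cast_sub hi, sub_smul]
      abel
    have hM : ∀ i : ℕ, i ≤ J →
        MemLp (fun z => X z ^ i * h' z) 2 ((volume : Measure (Fin n → ℂ)).restrict Ω) ∧
        a ^ i ≤ ∫ z in Ω, ‖X z ^ i * h' z‖ ^ 2 := by
      intro i
      induction i with
      | zero => intro _; simpa using ⟨hL', h1'.ge⟩
      | succ i ih =>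
        intro hi
        have ih' := ih (by omega)
        have hG : Good Ω (γ - (J : ℤ) • α + (i : ℤ) • α) := by
          rw [hwt i (by omega)]
          exact hgood _
        obtain ⟨h2, h3⟩ := s.step hG (s.diff_pow hd' i) (s.pow_wt hw' i)
        have e : ∀ z, X z * (X z ^ i * h' z) = X z ^ (i + 1) * h' z := by
          intro z
          rw [pow_succ]
          ring
        simp_rw [e] at h2 h3
        refine ⟨h2, ?_⟩
        rw [h3, pow_succ, mul_comm]
        apply mul_le_mul _ ih'.2 (by positivity)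
        · unfold rho
          positivity
        · rw [hwt i (by omega)]
          exact (hrho _).le
    obtain ⟨hM1, hM2⟩ := hM J le_rfl
    have hwJ : HasWt Ω γ (fun z => X z ^ J * h' z) := by
      have := s.pow_wt hw' J
      rwa [sub_add_cancel] at this
    obtain ⟨c, hc⟩ := s.prop h (s.diff_pow hd' J) hwJ
    have e1 : ∀ z ∈ Ω, ‖X z ^ J * h' z‖ ^ 2 = ‖c‖ ^ 2 * ‖g z‖ ^ 2 := by
      intro z hz
      rw [hc z hz, norm_mul, mul_pow]
    rw [setIntegral_congr_fun s.hΩ.measurableSet e1, integral_const_mul, h1, mul_one] at hM2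
    have hi' := (memLp_two_iff_integrable_sq_norm hL'.aestronglyMeasurable).1 hL'
    calc a ^ J * δ ≤ ‖c‖ ^ 2 * δ := mul_le_mul_of_nonneg_right hM2 hδ.le
      _ = ∫ z in V, ‖c‖ ^ 2 * ‖g z‖ ^ 2 := by rw [integral_const_mul]
      _ ≤ ∫ z in V, a' ^ J * ‖h' z‖ ^ 2 := by
          apply setIntegral_mono_on
          · exact (hgi.mono_measure (Measure.restrict_mono hVΩ le_rfl)).const_mul _
          · exact (hi'.mono_measure (Measure.restrict_mono hVΩ le_rfl)).const_mul _
          · exact hVo.measurableSet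
          · intro z hz
            rw [← e1 z (hVΩ hz), norm_mul, mul_pow, norm_pow, ← pow_mul, mul_comm J 2, pow_mul]
            apply mul_le_mul_of_nonneg_right _ (by positivity)
            apply pow_le_pow_left₀ (by positivity) hz.2.le
      _ = a' ^ J * ∫ z in V, ‖h' z‖ ^ 2 := by rw [integral_const_mul]
      _ ≤ a' ^ J * ∫ z in Ω, ‖h' z‖ ^ 2 := by
          apply mul_le_mul_of_nonneg_left _ (by positivity)
          apply setIntegral_mono_set hi'
          · exact Eventually.of_forall (fun z => by simp only [Pi.zero_apply]; positivity)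
          · exact Eventually.of_forall hVΩ
      _ = a' ^ J := by rw [h1', mul_one]
  obtain ⟨k, hk⟩ := exists_pow_lt_of_lt_one hδ ((div_lt_one ha).2 haa)
  rw [div_pow, div_lt_iff₀ (pow_pos ha k)] at hk
  have := hbound k
  linarith [mul_comm δ (a ^ k)]

/-- the sum over one line -/
lemma line (s : Setup Ω X α S) (hα : α ≠ 0) {γ : Fin n → ℤ} (h : Good Ω γ) {a a' b b' : ℝ}
    (ha' : 0 < a') (haa : a' < a) (hb : 0 < b) (hbb : b < b') {z₁ z₂ : Fin n → ℂ} (hz₁ : z₁ ∈ Ω)
    (hz₂ : z₂ ∈ Ω) (hX₁ : ‖X z₁‖ ^ 2 < a') (hX₂ : b' < ‖X z₂‖ ^ 2) :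
    ∃ L : Finset (Fin n → ℤ), (∀ w ∈ L, Good Ω w ∧ ∃ m : ℤ, w = γ + m • α) ∧
      b - a ≤ ∑ w ∈ L, (rho Ω X w - rho Ω X (w - α)) := by
  classical
  obtain ⟨K, hK⟩ := s.claimU h hb hbb hz₂ hX₂
  obtain ⟨J, hJg, hJ⟩ := s.claimL h ha' haa hz₁ hX₁
  set w : ℕ → (Fin n → ℤ) := fun i => γ + ((i : ℤ) - (J : ℤ)) • α with hw
  have hinj : Function.Injective w := by
    intro i j hij
    simp only [hw, add_right_inj] at hij
    have h1 := smul_left_injective ℤ hα hij
    have : (i : ℤ) = j := by linarith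
    exact_mod_cast this
  refine ⟨(Finset.range (J + K)).image (fun i => w (i + 1)), ?_, ?_⟩
  · intro v hv
    obtain ⟨i, hi, rfl⟩ := Finset.mem_image.1 hv
    refine ⟨?_, ⟨_, rfl⟩⟩
    by_cases hiJ : i + 1 ≤ J
    · have h1 : w (i + 1) = γ - ((J - (i + 1) : ℕ) : ℤ) • α := by
        simp only [hw]
        rw [Nat.cast_sub hiJ, sub_smul, sub_smul]
        abel
      rw [h1]
      exact hJg _ (by omega)
    · have h1 : w (i + 1) = γ + ((i + 1 - J : ℕ) : ℤ) • α := by
        simp only [hw]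
        rw [Nat.cast_sub (by omega)]
      rw [h1]
      exact s.good_add_nat h _
  · rw [Finset.sum_image (fun i _ j _ hij => by
      have := hinj hij
      omega)]
    have h1 : ∀ i : ℕ, rho Ω X (w (i + 1)) - rho Ω X (w (i + 1) - α) =
        (fun i => rho Ω X (w i)) (i + 1) - (fun i => rho Ω X (w i)) i := by
      intro i
      simp only
      congr 2
      simp only [hw]
      push_cast
      rw [show ((i : ℤ) + 1 - (J : ℤ)) = ((i : ℤ) - J) + 1 by ring, add_smul, one_smul]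
      abel
    rw [Finset.sum_congr rfl (fun i _ => h1 i), Finset.sum_range_sub (fun i => rho Ω X (w i)) (J + K)]
    have h2 : w (J + K) = γ + (K : ℤ) • α := by
      simp only [hw]
      push_cast
      congr 2
      ring
    have h3 : w 0 = γ - (J : ℤ) • α := by
      simp only [hw]
      rw [Nat.cast_zero, zero_sub, neg_smul]
      abel
    rw [h2, h3]
    linarith

end Setup

end Pool.Agent.Y259.RH
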