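import Mathlib
import Pool.Agent.Y259.RH.Defs
import Pool.Agent.Y259.RH.Lines

set_option autoImplicit false

open MeasureTheory Set Filter Topology ComplexConjugate UnitAddTorus Metric
open scoped ENNReal

namespace Pool.Agent.Y259.RH

variable {n : ℕ}

lemma IsReinhardtDomain.rotInv {Ω : Set (Fin n → ℂ)} (h : IsReinhardtDomain Ω) : RotInv Ω := by
  intro t z hz
  have hex : ∀ j, ∃ y : ℝ, ((y : ℝ) : UnitAddCircle) = t j := fun j =>
    QuotientAddGroup.mk_surjective (t j)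
  choose y hy using hex
  have h1 := rot_coe (fun j => 2 * Real.pi * y j) z
  have h2 : (fun j => (((2 * Real.pi * y j) / (2 * Real.pi) : ℝ) : UnitAddCircle)) = t := by
    funext j
    rw [mul_div_cancel_left₀ _ (by positivity)]
    exact hy j

  rw [h2] at h1
  rw [h1]
  have h3 := h.rotate z hz (fun j => 2 * Real.pi * y j)
  have h4 : (fun j => z j * Complex.exp (Complex.I * ((2 * Real.pi * y j : ℝ) : ℂ))) =
      fun j => Complex.exp (Complex.I * ((2 * Real.pi * y j : ℝ) : ℂ)) * z j := by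
    funext j
    rw [mul_comm]
  rw [h4]
  exact h3

/-- a nonzero weight function does not have constant modulus -/
lemma exists_gap {Ω : Set (Fin n → ℂ)} (hΩ : IsOpen Ω) (hc : IsPreconnected Ω) (hR : RotInv Ω)
    {X : (Fin n → ℂ) → ℂ} {α : Fin n → ℤ} (hα : α ≠ 0) (hXd : DifferentiableOn ℂ X Ω)
    (hXw : HasWt Ω α X) (hne : ∃ z ∈ Ω, X z ≠ 0) :
    ∃ z₁ ∈ Ω, ∃ z₂ ∈ Ω, ‖X z₁‖ < ‖X z₂‖ := by
  by_contra hcon
  push Not at hcon
  obtain ⟨z₀, hz₀, hX0⟩ := hne
  have hmax : IsMaxOn (norm ∘ X) Ω z₀ := fun z hz => hcon z₀ hz₀ z hz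
  have heq := Complex.eqOn_of_isPreconnected_of_isMaxOn_norm hc hΩ hXd hz₀ hmax
  obtain ⟨t, ht⟩ := exists_mFourier_ne_one hα
  have h1 : X (rot t z₀) = X z₀ := heq (hR t z₀ hz₀)
  have h2 := hXw z₀ hz₀ t
  rw [h1] at h2
  apply ht
  have h3 : (mFourier α t - 1) * X z₀ = 0 := by
    rw [sub_mul, one_mul, ← h2, sub_self]
  exact sub_eq_zero.1 ((mul_eq_zero.1 h3).resolve_right hX0)

/-- weights of the monomials `z_i^s` -/
def base (i : Fin n) (s : ℕ) : Fin n → ℤ := fun j => if j = i then (s : ℤ) else 0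

lemma mFourier_base (i : Fin n) (s : ℕ) (t : UnitAddTorus (Fin n)) :
    mFourier (base i s) t = (AddCircle.toCircle (t i) : ℂ) ^ s := by
  simp only [mFourier, ContinuousMap.coe_mk]
  rw [Finset.prod_eq_single i]
  · simp only [base, if_true, fourier_apply]
    rw [natCast_zsmul, AddCircle.toCircle_nsmul, Circle.coe_pow]
  · intro j _ hj
    simp [base, hj]
  · simp

lemma good_base {Ω : Set (Fin n → ℂ)} (hΩ : IsOpen Ω) (hne : Ω.Nonempty)
    (hb : Bornology.IsBounded Ω) (i : Fin n) (s : ℕ) : Good Ω (base i s) := by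
  obtain ⟨z₀, hz₀⟩ := hne
  obtain ⟨w, hw, hwj⟩ := exists_ne_zero hΩ hz₀
  have hd : Differentiable ℂ (fun z : Fin n → ℂ => z i ^ s) := by fun_prop
  refine good_of hΩ (g := fun z => z i ^ s) hd.differentiableOn ?_ ?_ hw (pow_ne_zero _ (hwj i))
  · intro z _ t
    rw [mFourier_base]
    simp only [rot, mul_pow]
  · obtain ⟨R, hR⟩ := hb.exists_norm_le
    have hfin : IsFiniteMeasure ((volume : Measure (Fin n → ℂ)).restrict Ω) :=
      ⟨by rw [Measure.restrict_apply_univ]; exact hb.measure_lt_top⟩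
    apply MemLp.of_bound hd.continuous.aestronglyMeasurable (R ^ s)
    filter_upwards [ae_restrict_mem hΩ.measurableSet] with z hz
    rw [norm_pow]
    apply pow_le_pow_left₀ (norm_nonneg _)
    exact (norm_le_pi_norm z i).trans (hR z hz)

theorem setup_false (hn : 2 ≤ n) {Ω : Set (Fin n → ℂ)} {X : (Fin n → ℂ) → ℂ} {α : Fin n → ℤ}
    {S : ℝ} (hα : α ≠ 0) (s : Setup Ω X α S) : False := by
  classical
  have hne : Ω.Nonempty := by
    obtain ⟨z, hz, _⟩ := s.Xne
    exact ⟨z, hz⟩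
  obtain ⟨z₁, hz₁, z₂, hz₂, hlt⟩ := exists_gap s.hΩ s.hc s.hR hα s.Xd s.Xw s.Xne
  have hlt2 : ‖X z₁‖ ^ 2 < ‖X z₂‖ ^ 2 := pow_lt_pow_left₀ hlt (norm_nonneg _) two_ne_zero
  set p := ‖X z₁‖ ^ 2 with hp
  set q := ‖X z₂‖ ^ 2 with hq
  have hp0 : 0 ≤ p := by positivity
  -- p < a' < a < b < b' < q
  set d := (q - p) / 5 with hd
  have hd0 : 0 < d := by simp only [hd]; linarith
  -- the coordinate
  obtain ⟨j₀, hj₀⟩ := Function.ne_iff.mp hα
  simp only [Pi.zero_apply] at hj₀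
  haveI : Nontrivial (Fin n) := Fin.nontrivial_iff_two_le.2 hn
  obtain ⟨i, hi⟩ := exists_ne j₀
  have hline : ∀ t : ℕ, ∃ L : Finset (Fin n → ℤ), (∀ w ∈ L, Good Ω w ∧ ∃ m : ℤ, w = base i t + m • α) ∧
      d ≤ ∑ w ∈ L, (rho Ω X w - rho Ω X (w - α)) := by
    intro t
    have h := s.line hα (good_base s.hΩ hne s.hb i t) (a := p + 2 * d) (a' := p + d)
      (b := p + 3 * d) (b' := p + 4 * d) (by linarith) (by linarith) (by linarith) (by linarith)
      hz₁ hz₂ (by linarith) (by simp only [hd]; linarith)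
    obtain ⟨L, hL, hL2⟩ := h
    exact ⟨L, hL, by linarith⟩
  choose L hL hLsum using hline
  have hdisj : ∀ t t' : ℕ, t ≠ t' → Disjoint (L t) (L t') := by
    intro t t' htt
    rw [Finset.disjoint_left]
    intro w hw hw'
    obtain ⟨_, m, hm⟩ := hL t w hw
    obtain ⟨_, m', hm'⟩ := hL t' w hw'
    apply htt
    have h1 : base i t + m • α = base i t' + m' • α := by rw [← hm, ← hm']
    have h2 := congrFun h1 j₀
    simp only [Pi.add_apply, Pi.smul_apply, base, hi.symm, if_false, zero_add, smul_eq_mul] at h2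
    have h3 : m = m' := mul_right_cancel₀ hj₀ h2
    rw [h3, add_left_inj] at h1
    have h4 := congrFun h1 i
    simp only [base, if_true] at h4
    exact_mod_cast h4
  obtain ⟨N, hN⟩ := exists_nat_gt (S / d)
  have h5 := s.ineq ((Finset.range N).biUnion L) (by
    intro γ hγ
    obtain ⟨t, _, ht⟩ := Finset.mem_biUnion.1 hγ
    exact (hL t γ ht).1)
  rw [Finset.sum_biUnion (fun t _ t' _ htt => hdisj t t' htt)] at h5
  have h6 : (N : ℝ) * d ≤ ∑ t ∈ Finset.range N, ∑ w ∈ L t, (rho Ω X w - rho Ω X (w - α)) := by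
    have := Finset.card_nsmul_le_sum (Finset.range N)
      (fun t => ∑ w ∈ L t, (rho Ω X w - rho Ω X (w - α))) d (fun t _ => hLsum t)
    rwa [Finset.card_range, nsmul_eq_mul] at this
  rw [div_lt_iff₀ hd0] at hN
  linarith

theorem const_of_hs (hn : 2 ≤ n) {Ω : Set (Fin n → ℂ)} (hΩ : IsReinhardtDomain Ω)
    (hb : Bornology.IsBounded Ω) {f : (Fin n → ℂ) → ℂ} (hf : DifferentiableOn ℂ f Ω)
    (hHS : IsHilbertSchmidtHankel Ω f) : ∃ c, ∀ z ∈ Ω, f z = c := by
  have hR := hΩ.rotInv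
  have hc := hΩ.isConnected.isPreconnected
  refine const_of_comp hΩ.isOpen hc hΩ.isConnected.nonempty hR hf ?_
  intro α hα z hz
  by_contra hne
  obtain ⟨hd, T, hT, ι, b, hS⟩ := hHS
  refine setup_false hn hα (X := comp α f) (S := ∑' i, ‖T (b i)‖ ^ 2) (Ω := Ω)
    ⟨hΩ.isOpen, hc, hR, hb, by omega, comp_differentiableOn hΩ.isOpen hR α hf, comp_wt Ω α f,
      ⟨z, hz, hne⟩, ?_⟩
  intro K hK hKΩ hKR I g G hD
  exact key hΩ.isOpen hR hK hKΩ hKR hf hd T hT b hS α I g G hD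

/-- for constant symbols the Hankel operator is zero -/
theorem hankel_zero {Ω : Set (Fin n → ℂ)} {f : (Fin n → ℂ) → ℂ} (hm : MeasurableSet Ω) {c : ℂ}
    (hc : ∀ z ∈ Ω, f z = c) {g : L2 Ω} (hg : g ∈ hankelDomain Ω f) (w : L2 Ω) :
    IsHankelValue Ω f g w ↔ w = 0 := by
  have hcg : ∀ᵐ z ∂((volume : Measure (Fin n → ℂ)).restrict Ω), conj (f z) * g z = (conj c • g : L2 Ω) z := by
    filter_upwards [ae_restrict_mem hm, Lp.coeFn_smul (conj c) g] with z hz h1
    rw [h1, Pi.smul_apply, smul_eq_mul, hc z hz]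
  constructor
  · rintro ⟨hw, v, hv, hvw⟩
    have h1 : w = conj c • g - v := by
      apply Lp.ext
      filter_upwards [hcg, hvw, Lp.coeFn_sub (conj c • g) v] with z h1 h2 h3
      rw [h3, Pi.sub_apply, ← h1, h2]
      ring
    have h2 : w ∈ bergman Ω := by
      rw [h1]
      exact (bergman Ω).sub_mem ((bergman Ω).smul_mem _ hg.1) hv
    have h3 := (Submodule.mem_orthogonal _ _).1 hw w h2
    exact inner_self_eq_zero.1 h3
  · rintro rfl
    refine ⟨Submodule.zero_mem _, conj c • g, (bergman Ω).smul_mem _ hg.1, ?_⟩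
    filter_upwards [hcg, Lp.coeFn_zero ℂ 2 ((volume : Measure (Fin n → ℂ)).restrict Ω)] with z h1 h2
    rw [h1, h2, Pi.zero_apply, add_zero]

end Pool.Agent.Y259.RH
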