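import Mathlib

set_option autoImplicit false

open MeasureTheory ComplexConjugate

namespace Pool.Agent.Y259.RHS

variable {n : ℕ}

/-- A Reinhardt domain in `ℂⁿ`: a (nonempty) connected open set which is invariant under the
rotations `(z₁, …, zₙ) ↦ (e^{iθ₁} z₁, …, e^{iθₙ} zₙ)`. -/
structure IsReinhardtDomain (Ω : Set (Fin n → ℂ)) : Prop where
  isOpen : IsOpen Ω
  isConnected : IsConnected Ω
  rotate : ∀ z ∈ Ω, ∀ θ : Fin n → ℝ, (fun j => Complex.exp (Complex.I * θ j) * z j) ∈ Ω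

/-- Lebesgue measure on `Ω`. -/
noncomputable def leb (Ω : Set (Fin n → ℂ)) : Measure (Fin n → ℂ) := volume.restrict Ω

/-- The Hilbert space `L²(Ω)` with respect to Lebesgue measure. -/
def L2 (Ω : Set (Fin n → ℂ)) : Type := Lp ℂ 2 (leb Ω)

noncomputable instance (Ω : Set (Fin n → ℂ)) : NormedAddCommGroup (L2 Ω) :=
  Lp.instNormedAddCommGroup (E := ℂ) (p := 2) (μ := leb Ω)

noncomputable instance (Ω : Set (Fin n → ℂ)) : InnerProductSpace ℂ (L2 Ω) :=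
  L2.innerProductSpace (𝕜 := ℂ) (E := ℂ) (μ := leb Ω)

/-- An element of `L²(Ω)` seen in Mathlib's `Lp` space. -/
def L2.toLp {Ω : Set (Fin n → ℂ)} (u : L2 Ω) : Lp ℂ 2 (leb Ω) := u

/-- The element `u` of `L²(Ω)` is the class of the function `g`: `u = g` almost everywhere on
`Ω`. -/
def IsClassOf {Ω : Set (Fin n → ℂ)} (u : L2 Ω) (g : (Fin n → ℂ) → ℂ) : Prop :=
  ∀ᵐ z ∂(leb Ω), u.toLp z = g z

lemma coe_add {Ω : Set (Fin n → ℂ)} (u v : L2 Ω) :
    ∀ᵐ z ∂(leb Ω), (u + v).toLp z = u.toLp z + v.toLp z := Lp.coeFn_add u.toLp v.toLp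

lemma coe_zero {Ω : Set (Fin n → ℂ)} : ∀ᵐ z ∂(leb Ω), (0 : L2 Ω).toLp z = 0 :=
  Lp.coeFn_zero ℂ 2 (leb Ω)

lemma coe_smul {Ω : Set (Fin n → ℂ)} (c : ℂ) (u : L2 Ω) :
    ∀ᵐ z ∂(leb Ω), (c • u).toLp z = c * u.toLp z := Lp.coeFn_smul c u.toLp

/-- The Bergman space `A²(Ω)`: the elements of `L²(Ω)` which are the class of a holomorphic
function on `Ω`. -/
def bergman (Ω : Set (Fin n → ℂ)) : Submodule ℂ (L2 Ω) where
  carrier := {u | ∃ g : (Fin n → ℂ) → ℂ, DifferentiableOn ℂ g Ω ∧ IsClassOf u g}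
  add_mem' := by
    rintro u v ⟨g, hg, hu⟩ ⟨h, hh, hv⟩
    refine ⟨fun z => g z + h z, hg.add hh, ?_⟩
    filter_upwards [hu, hv, coe_add u v] with z h1 h2 h3
    rw [h3, h1, h2]
  zero_mem' := ⟨fun _ => 0, differentiableOn_const _, coe_zero⟩
  smul_mem' := by
    rintro c u ⟨g, hg, hu⟩
    refine ⟨fun z => c * g z, hg.const_mul c, ?_⟩
    filter_upwards [hu, coe_smul c u] with z h1 h3
    rw [h3, h1]

/-- The domain of the Hankel operator `H` with symbol `f̄`: the `g` in `A²(Ω)` with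
`f̄ g` in `L²(Ω)`. -/
def hankelDomain (Ω : Set (Fin n → ℂ)) (f : (Fin n → ℂ) → ℂ) : Set (L2 Ω) :=
  {g | g ∈ bergman Ω ∧ MemLp (fun z => conj (f z) * g.toLp z) 2 (leb Ω)}

/-- `w = (I - P)(f̄ g)`, where `P` is the orthogonal projection onto `A²(Ω)`: `w` is orthogonal to
`A²(Ω)` and `f̄ g = v + w` with `v` in `A²(Ω)`. -/
def IsHankelValue (Ω : Set (Fin n → ℂ)) (f : (Fin n → ℂ) → ℂ) (g w : L2 Ω) : Prop :=
  w ∈ (bergman Ω)ᗮ ∧ ∃ v ∈ bergman Ω, IsClassOf (v + w) (fun z => conj (f z) * g.toLp z)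

/-- A bounded operator between Hilbert spaces is Hilbert-Schmidt: `∑ ‖T b_i‖² < ∞` for an
orthonormal basis `b` (a Hilbert basis). -/
def IsHilbertSchmidt {H K : Type} [NormedAddCommGroup H] [InnerProductSpace ℂ H]
    [NormedAddCommGroup K] [InnerProductSpace ℂ K] (T : H →L[ℂ] K) : Prop :=
  ∃ (ι : Type) (b : HilbertBasis ι ℂ H), Summable fun i => ‖T (b i)‖ ^ 2

/-- The map `T : A²(Ω) → L²(Ω)` extends the Hankel operator with symbol `f̄`. -/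
def ExtendsHankel (Ω : Set (Fin n → ℂ)) (f : (Fin n → ℂ) → ℂ) (T : bergman Ω → L2 Ω) : Prop :=
  ∀ g : bergman Ω, g.1 ∈ hankelDomain Ω f → IsHankelValue Ω f g.1 (T g)

/-- The Hankel operator with symbol `f̄` is Hilbert-Schmidt: its domain is dense in `A²(Ω)`, and it
extends to a Hilbert-Schmidt operator `A²(Ω) → L²(Ω)`. -/
def IsHilbertSchmidtHankel (Ω : Set (Fin n → ℂ)) (f : (Fin n → ℂ) → ℂ) : Prop :=
  (bergman Ω).carrier ⊆ closure (hankelDomain Ω f) ∧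
    ∃ T : bergman Ω →L[ℂ] L2 Ω, ExtendsHankel Ω f T ∧ IsHilbertSchmidt T

end Pool.Agent.Y259.RHS
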