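import Mathlib
import Pool.Agent.Y259.RH.Stmt
import Pool.Agent.Y259.RH.Main

set_option autoImplicit false

open MeasureTheory ComplexConjugate Set Filter

namespace Pool.Agent.Y259.RHS

variable {n : ℕ}

lemma toOld {Ω : Set (Fin n → ℂ)} (h : IsReinhardtDomain Ω) : RH.IsReinhardtDomain Ω :=
  ⟨h.isOpen, h.isConnected, h.rotate⟩

lemma value_old {Ω : Set (Fin n → ℂ)} {f : (Fin n → ℂ) → ℂ} {g w : L2 Ω}
    (h : IsHankelValue Ω f g w) : RH.IsHankelValue Ω f g.toLp w.toLp := by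
  obtain ⟨hw, v, hv, h1⟩ := h
  refine ⟨hw, v, hv, ?_⟩
  filter_upwards [h1, coe_add v w] with z h2 h3
  exact h2.symm.trans h3

theorem hs_old {Ω : Set (Fin n → ℂ)} {f : (Fin n → ℂ) → ℂ} (h : IsHilbertSchmidtHankel Ω f) :
    RH.IsHilbertSchmidtHankel Ω f := by
  obtain ⟨hd, T, hT, ι, b, hS⟩ := h
  refine ⟨hd, T, ?_, ι, b, hS⟩
  intro g hg
  exact value_old (hT g hg)

theorem zero_iff {Ω : Set (Fin n → ℂ)} {f : (Fin n → ℂ) → ℂ} (hm : MeasurableSet Ω) {c : ℂ}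
    (hc : ∀ z ∈ Ω, f z = c) {g : L2 Ω} (hg : g ∈ hankelDomain Ω f) (w : L2 Ω) :
    IsHankelValue Ω f g w ↔ w = 0 := by
  have h := RH.hankel_zero hm hc (g := g.toLp) hg w.toLp
  constructor
  · intro hw
    exact h.1 (value_old hw)
  · intro hw
    obtain ⟨h1, v, hv, h2⟩ := h.2 hw
    refine ⟨h1, v, hv, ?_⟩
    filter_upwards [h2, coe_add (v : L2 Ω) w] with z h3 h4
    rw [h4]
    exact h3.symm

end Pool.Agent.Y259.RHS
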